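import Mathlib

/-!
# Functions of quadratic growth of random variables which are close in mean square
-/

set_option autoImplicit false
set_option linter.unusedSectionVars false

namespace Pool.Agent.H439.FA

open MeasureTheory Filter Topology

section
variable {E : Type*} [NormedAddCommGroup E] [ProperSpace E] [MeasurableSpace E] [BorelSpace E]

lemma growth_nonneg {f : E → ℝ} {D : ℝ} (hD : ∀ z, |f z| ≤ D * (1 + ‖z‖ ^ 2)) : 0 ≤ D := by
  have := (abs_nonneg _).trans (hD 0)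
  simpa using this

lemma integrable_growth {f : E → ℝ} (hf : Continuous f) {D : ℝ}
    (hD : ∀ z, |f z| ≤ D * (1 + ‖z‖ ^ 2)) {Ω : Type} [MeasurableSpace Ω] {μ : Measure Ω}
    [IsProbabilityMeasure μ] {Z : Ω → E} (hZ : Measurable Z) (hZ2 : Integrable (fun ω => ‖Z ω‖ ^ 2) μ) :
    Integrable (fun ω => f (Z ω)) μ := by
  refine Integrable.mono' (((integrable_const (1 : ℝ)).add hZ2).const_mul D)
    (hf.measurable.comp hZ).aestronglyMeasurable (Eventually.of_forall fun ω => ?_)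
  rw [Real.norm_eq_abs]
  exact hD _

lemma sq_integrable_of_close {Ω : Type} [MeasurableSpace Ω] {μ : Measure Ω}
    [IsProbabilityMeasure μ] {Z W : Ω → E} (hZ : Measurable Z) {B : ℝ}
    (hB : ∀ ω, ‖W ω‖ ≤ B) (hi : Integrable (fun ω => ‖Z ω - W ω‖ ^ 2) μ) :
    Integrable (fun ω => ‖Z ω‖ ^ 2) μ := by
  refine Integrable.mono' ((hi.const_mul 2).add (integrable_const (2 * B ^ 2)))
    (hZ.norm.pow_const 2).aestronglyMeasurable (Eventually.of_forall fun ω => ?_)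
  rw [Real.norm_of_nonneg (by positivity)]
  change ‖Z ω‖ ^ 2 ≤ 2 * ‖Z ω - W ω‖ ^ 2 + 2 * B ^ 2
  have h1 : ‖Z ω‖ ≤ ‖Z ω - W ω‖ + B := by
    have e : Z ω = (Z ω - W ω) + W ω := by abel
    calc ‖Z ω‖ = ‖(Z ω - W ω) + W ω‖ := by rw [← e]
      _ ≤ _ := (norm_add_le _ _).trans (by linarith [hB ω])
  have h2 := pow_le_pow_left₀ (norm_nonneg _) h1 2
  nlinarith [sq_nonneg (‖Z ω - W ω‖ - B)]

/-- **The comparison.** -/
theorem transfer {f : E → ℝ} (hf : Continuous f) {D : ℝ} (hD : ∀ z, |f z| ≤ D * (1 + ‖z‖ ^ 2))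
    {η : ℝ} (hη : 0 < η) : ∃ δ₁ : ℝ, 0 < δ₁ ∧ ∀ B : ℝ, ∃ δ₂ : ℝ, 0 < δ₂ ∧
      ∀ (Ω : Type) [MeasurableSpace Ω] (μ : Measure Ω) [IsProbabilityMeasure μ]
        (Z W₁ W₂ : Ω → E), Measurable Z → Measurable W₂ → (∀ ω, ‖W₁ ω‖ ≤ B) →
        (∃ B₂ : ℝ, ∀ ω, ‖W₂ ω‖ ≤ B₂) →
        Integrable (fun ω => ‖Z ω - W₁ ω‖ ^ 2) μ → Integrable (fun ω => ‖Z ω - W₂ ω‖ ^ 2) μ →
        ∫ ω, ‖Z ω - W₁ ω‖ ^ 2 ∂μ ≤ δ₁ → ∫ ω, ‖Z ω - W₂ ω‖ ^ 2 ∂μ ≤ δ₂ →
        |∫ ω, f (Z ω) ∂μ - ∫ ω, f (W₂ ω) ∂μ| ≤ η := by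
  have hD0 := growth_nonneg hD
  refine ⟨η / (80 * (D + 1)), by positivity, fun B => ?_⟩
  set R : ℝ := 2 * |B| + 1 with hR
  have hR1 : 1 ≤ R := by rw [hR]; linarith [abs_nonneg B]
  have huc : UniformContinuousOn f (Metric.closedBall 0 (R + 1)) :=
    (isCompact_closedBall _ _).uniformContinuousOn_of_continuous hf.continuousOn
  rw [Metric.uniformContinuousOn_iff] at huc
  obtain ⟨θ', hθ', huc'⟩ := huc (η / 4) (by positivity)
  set θ : ℝ := min θ' 1 with hθ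
  have hθ0 : 0 < θ := lt_min hθ' one_pos
  have hθ1 : θ ≤ 1 := min_le_right _ _
  set Q : ℝ := (2 + 3 * R ^ 2) / θ ^ 2 + 2 with hQ
  have hQ0 : 0 < Q := by positivity
  refine ⟨η / (4 * (D + 1) * Q), by positivity, ?_⟩
  intro Ω _ μ _ Z W₁ W₂ hZ hW₂ hB₁ hB₂ hi1 hi2 h1 h2
  obtain ⟨B₂, hB₂⟩ := hB₂
  have hZ2 := sq_integrable_of_close hZ hB₂ hi2
  have hfZ := integrable_growth hf hD hZ hZ2
  have hW2 : Integrable (fun ω => ‖W₂ ω‖ ^ 2) μ := by
    refine Integrable.of_bound (hW₂.norm.pow_const 2).aestronglyMeasurable (B₂ ^ 2)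
      (Eventually.of_forall fun ω => ?_)
    rw [norm_pow, norm_norm]
    exact pow_le_pow_left₀ (norm_nonneg _) (hB₂ ω) 2
  have hfW := integrable_growth hf hD hW₂ hW2
  have hpt : ∀ ω, |f (Z ω) - f (W₂ ω)| ≤
      η / 4 + (20 * D * ‖Z ω - W₁ ω‖ ^ 2 + D * Q * ‖Z ω - W₂ ω‖ ^ 2) := by
    intro ω
    set z := Z ω
    set w₁ := W₁ ω
    set w₂ := W₂ ω
    have hw1 : ‖w₁‖ ≤ |B| := (hB₁ ω).trans (le_abs_self _)
    have hpos : 0 ≤ 20 * D * ‖z - w₁‖ ^ 2 + D * Q * ‖z - w₂‖ ^ 2 := by positivity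
    have hcrude : |f z - f w₂| ≤ D * (2 + ‖z‖ ^ 2 + ‖w₂‖ ^ 2) := by
      have h3 := hD z
      have h4 := hD w₂
      have h5 := abs_sub (f z) (f w₂)
      nlinarith
    have hw2 : ‖w₂‖ ^ 2 ≤ 2 * ‖z‖ ^ 2 + 2 * ‖z - w₂‖ ^ 2 := by
      have h3 : ‖w₂‖ ≤ ‖z‖ + ‖z - w₂‖ := by
        have e : w₂ = z - (z - w₂) := by abel
        calc ‖w₂‖ = ‖z - (z - w₂)‖ := by rw [← e]
          _ ≤ _ := norm_sub_le _ _
      have h4 := pow_le_pow_left₀ (norm_nonneg _) h3 2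
      nlinarith [sq_nonneg (‖z‖ - ‖z - w₂‖)]
    rcases lt_or_ge R ‖z‖ with hz | hz
    · have h3 : ‖z‖ ≤ 2 * ‖z - w₁‖ := by
        have e : z = (z - w₁) + w₁ := by abel
        have h4 : ‖z‖ ≤ ‖z - w₁‖ + ‖w₁‖ := by
          calc ‖z‖ = ‖(z - w₁) + w₁‖ := by rw [← e]
            _ ≤ _ := norm_add_le _ _
        linarith
      have h4 : ‖z‖ ^ 2 ≤ 4 * ‖z - w₁‖ ^ 2 := by
        have := pow_le_pow_left₀ (norm_nonneg _) h3 2
        nlinarith
      have h5 : 1 ≤ ‖z‖ ^ 2 := by nlinarith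
      have h6 : D * (2 + ‖z‖ ^ 2 + ‖w₂‖ ^ 2) ≤ D * (20 * ‖z - w₁‖ ^ 2 + Q * ‖z - w₂‖ ^ 2) := by
        apply mul_le_mul_of_nonneg_left _ hD0
        have h7 : 2 * ‖z - w₂‖ ^ 2 ≤ Q * ‖z - w₂‖ ^ 2 := by
          apply mul_le_mul_of_nonneg_right _ (by positivity)
          have : 0 ≤ (2 + 3 * R ^ 2) / θ ^ 2 := by positivity
          linarith
        linarith
      have h7 : 0 ≤ η / 4 := by positivity
      nlinarith
    · rcases lt_or_ge ‖z - w₂‖ θ with hc | hc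
      · have h3 : ‖w₂‖ ≤ R + 1 := by
          have e : w₂ = z - (z - w₂) := by abel
          have : ‖w₂‖ ≤ ‖z‖ + ‖z - w₂‖ := by
            calc ‖w₂‖ = ‖z - (z - w₂)‖ := by rw [← e]
              _ ≤ _ := norm_sub_le _ _
          linarith
        have h4 := huc' z (by rw [Metric.mem_closedBall, dist_zero_right]; linarith) w₂
          (by rw [Metric.mem_closedBall, dist_zero_right]; exact h3)
          (by rw [dist_eq_norm]; exact lt_of_lt_of_le hc (min_le_left _ _))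
        rw [Real.dist_eq] at h4
        linarith
      · have h3 : 1 ≤ ‖z - w₂‖ ^ 2 / θ ^ 2 := by
          rw [le_div_iff₀ (by positivity), one_mul]
          exact pow_le_pow_left₀ hθ0.le hc 2
        have h4 : ‖z‖ ^ 2 ≤ R ^ 2 := pow_le_pow_left₀ (norm_nonneg _) hz 2
        have h5 : 2 + ‖z‖ ^ 2 + ‖w₂‖ ^ 2 ≤ Q * ‖z - w₂‖ ^ 2 := by
          have h6 : 2 + 3 * R ^ 2 ≤ (2 + 3 * R ^ 2) * (‖z - w₂‖ ^ 2 / θ ^ 2) :=
            le_mul_of_one_le_right (by positivity) h3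
          have e : Q * ‖z - w₂‖ ^ 2 = (2 + 3 * R ^ 2) * (‖z - w₂‖ ^ 2 / θ ^ 2) +
              2 * ‖z - w₂‖ ^ 2 := by
            rw [hQ]
            field_simp
          rw [e]
          linarith
        have h6 := mul_le_mul_of_nonneg_left h5 hD0
        have h7 : 0 ≤ η / 4 := by positivity
        have h8 : 0 ≤ 20 * D * ‖z - w₁‖ ^ 2 := by positivity
        nlinarith
  rw [← integral_sub hfZ hfW]
  calc |∫ ω, (f (Z ω) - f (W₂ ω)) ∂μ| ≤ ∫ ω, |f (Z ω) - f (W₂ ω)| ∂μ :=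
        abs_integral_le_integral_abs
    _ ≤ ∫ ω, (η / 4 + (20 * D * ‖Z ω - W₁ ω‖ ^ 2 + D * Q * ‖Z ω - W₂ ω‖ ^ 2)) ∂μ :=
        integral_mono (hfZ.sub hfW).abs ((integrable_const _).add
          ((hi1.const_mul _).add (hi2.const_mul _))) hpt
    _ = η / 4 + (20 * D * (∫ ω, ‖Z ω - W₁ ω‖ ^ 2 ∂μ) + D * Q * ∫ ω, ‖Z ω - W₂ ω‖ ^ 2 ∂μ) := by
        have hi3 : Integrable (fun ω => 20 * D * ‖Z ω - W₁ ω‖ ^ 2 + D * Q * ‖Z ω - W₂ ω‖ ^ 2) μ :=
          (hi1.const_mul _).add (hi2.const_mul _)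
        rw [integral_add (integrable_const _) hi3,
          integral_add (hi1.const_mul _) (hi2.const_mul _), integral_const_mul,
          integral_const_mul, integral_const]
        simp
    _ ≤ η / 4 + (20 * D * (η / (80 * (D + 1))) + D * Q * (η / (4 * (D + 1) * Q))) := by
        have h3 := mul_le_mul_of_nonneg_left h1 (by positivity : 0 ≤ 20 * D)
        have h4 := mul_le_mul_of_nonneg_left h2 (by positivity : 0 ≤ D * Q)
        linarith
    _ ≤ η := by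
        have e1 : 20 * D * (η / (80 * (D + 1))) = (D / (D + 1)) * (η / 4) := by
          field_simp
          ring
        have e2 : D * Q * (η / (4 * (D + 1) * Q)) = (D / (D + 1)) * (η / 4) := by
          field_simp
        have e3 : D / (D + 1) ≤ 1 := by
          rw [div_le_one (by positivity)]
          linarith
        have e4 : (D / (D + 1)) * (η / 4) ≤ 1 * (η / 4) :=
          mul_le_mul_of_nonneg_right e3 (by positivity)
        rw [e1, e2]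
        linarith

end

end Pool.Agent.H439.FA
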