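import Pool.Agent.H439.FA.Kern

/-!
# Primes in short intervals and the kernel
-/

set_option autoImplicit false

namespace Pool.Agent.H439.FA

open Finset Complex ComplexConjugate Filter Topology MeasureTheory Pool.Agent.H439.LS
  Pool.Agent.H439.SP Pool.Agent.H439.LL Pool.Agent.H439.TA

lemma CT_pos : 0 < CT := by
  unfold CT
  have := CS_pos
  have := CB_pos
  positivity

/-- **The primes in a short interval.** -/
lemma bt {H : ℝ} (hH : (60000 : ℝ) ≤ H) {x : ℝ} (hx : (4 * H) ^ 41 ≤ x) (S : Finset ℕ)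
    (hS : ∀ p ∈ S, p.Prime ∧ x ≤ p ∧ (p : ℝ) ≤ x * (1 + 1 / H)) :
    ∑ p ∈ S, Real.log p ≤ 2 * Real.sqrt CT * (x / H) := by
  have hCT := CT_pos
  have hH0 : 0 < H := by linarith
  have h4H : (1 : ℝ) ≤ 4 * H := by linarith
  have hx40 : (4 * H) ^ 40 * (4 * H) ≤ x := by rw [← pow_succ]; exact hx
  have hp40 : (1 : ℝ) ≤ (4 * H) ^ 40 := one_le_pow₀ h4H
  have hx4 : 4 * H ≤ x := by nlinarith
  have hx0 : 0 < x := by linarith
  have hxH : 4 ≤ x / H := by rw [le_div_iff₀ hH0]; exact hx4
  set A : ℕ := ⌈x⌉₊ - 1 with hA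
  set T : ℕ := ⌊x * (1 + 1 / H)⌋₊ with hT
  have hc1 : 1 ≤ ⌈x⌉₊ := Nat.ceil_pos.2 hx0
  have hA1 : (A : ℝ) < x := by
    have h1 : (⌈x⌉₊ : ℝ) < x + 1 := Nat.ceil_lt_add_one hx0.le
    have h2 : (A : ℝ) = ⌈x⌉₊ - 1 := by
      rw [hA, Nat.cast_sub hc1]; simp
    linarith
  have hA2 : x - 1 ≤ A := by
    have h1 : x ≤ ⌈x⌉₊ := Nat.le_ceil x
    have h2 : (A : ℝ) = ⌈x⌉₊ - 1 := by
      rw [hA, Nat.cast_sub hc1]; simp
    linarith
  have hxe : x * (1 + 1 / H) = x + x / H := by ring
  have hT1 : (T : ℝ) ≤ x + x / H := by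
    rw [← hxe]
    exact Nat.floor_le (by positivity)
  have hT2 : x + x / H - 1 < T := by
    have := Nat.lt_floor_add_one (x * (1 + 1 / H))
    rw [hxe] at this
    have h3 : (T : ℝ) = (⌊x * (1 + 1 / H)⌋₊ : ℝ) := rfl
    rw [h3, hxe]
    linarith
  have hAT : A < T := by
    have : (A : ℝ) < T := by linarith
    exact_mod_cast this
  have hTA : x / H / 2 ≤ (T : ℝ) - A := by linarith
  have hxH1 : x / H ≤ x := div_le_self hx0.le (by linarith)
  have hbig : (60000 : ℝ) ^ 40 ≤ T := by
    have h1 : (60000 : ℝ) ^ 40 ≤ (4 * H) ^ 40 := pow_le_pow_left₀ (by norm_num) (by linarith) 40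
    nlinarith
  have hs : SpacedBy (J := 1) ((T : ℝ) / (T - A)) (fun _ => 1) (fun _ => (1 : DirichletCharacter ℂ 1))
      (fun _ => 0) := ⟨fun _ => one_pos, fun j k hjk => absurd (Subsingleton.elim j k) hjk⟩
  have h1 := taub hAT hbig hs (R := 4 * H) (by linarith) (fun _ => by push_cast; linarith)
    (fun _ => by rw [abs_zero]; linarith) (by nlinarith) (by
      have h2 : 4 * H * (x / H / 2) = 2 * x := by field_simp; ring
      have h3 : 4 * H * (x / H / 2) ≤ 4 * H * (T - A) := mul_le_mul_of_nonneg_left hTA (by linarith)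
      linarith) (M := 1) one_pos (a := fun _ => 1) (fun p _ => by rw [norm_one])
  have h2 : ∑ p ∈ (Ioc A T).filter Nat.Prime, Real.log p ≤ Real.sqrt CT * (T - A) := by
    have e : ∑ p ∈ (Ioc A T).filter Nat.Prime, (1 : ℂ) * Real.log p *
        ((1 : DirichletCharacter ℂ 1) p * ph 0 p) =
        ((∑ p ∈ (Ioc A T).filter Nat.Prime, Real.log p : ℝ) : ℂ) := by
      push_cast
      apply sum_congr rfl
      intro p hp
      have hpp := (mem_filter.1 hp).2.pos
      have e1 : ph 0 p = 1 := by
        unfold ph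
        simp
      have e2 : (1 : DirichletCharacter ℂ 1) (p : ZMod 1) = 1 :=
        MulChar.one_apply (isUnit_of_subsingleton _)
      rw [e1, e2]
      ring
    rw [norm_vec, Real.sq_sqrt (sum_nonneg fun j _ => by positivity)] at h1
    rw [Fin.sum_univ_one] at h1
    have h3 : (∑ p ∈ (Ioc A T).filter Nat.Prime, Real.log p) ^ 2 ≤ CT * 1 ^ 2 * (T - A) ^ 2 := by
      refine le_trans (le_of_eq ?_) h1
      rw [e, Complex.norm_real, Real.norm_eq_abs, sq_abs]
    have h4 : 0 ≤ ∑ p ∈ (Ioc A T).filter Nat.Prime, Real.log p :=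
      sum_nonneg fun p hp => Real.log_nonneg (by exact_mod_cast (mem_filter.1 hp).2.one_le)
    have h5 : (∑ p ∈ (Ioc A T).filter Nat.Prime, Real.log p) ^ 2 ≤ (Real.sqrt CT * (T - A)) ^ 2 := by
      rw [mul_pow, Real.sq_sqrt hCT.le]
      linarith
    have h6 : 0 ≤ Real.sqrt CT * (T - A) := by
      have : 0 < (T : ℝ) - A := by
        have := div_pos (div_pos hx0 hH0) two_pos
        linarith
      positivity
    exact abs_le_of_sq_le_sq' h5 h6 |>.2
  have hsub : S ⊆ (Ioc A T).filter Nat.Prime := by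
    intro p hp
    obtain ⟨h3, h4, h5⟩ := hS p hp
    rw [mem_filter, mem_Ioc]
    refine ⟨⟨?_, Nat.le_floor h5⟩, h3⟩
    have : (A : ℝ) < p := by linarith
    exact_mod_cast this
  calc ∑ p ∈ S, Real.log p ≤ ∑ p ∈ (Ioc A T).filter Nat.Prime, Real.log p :=
        sum_le_sum_of_subset_of_nonneg hsub fun p hp _ =>
          Real.log_nonneg (by exact_mod_cast (mem_filter.1 hp).2.one_le)
    _ ≤ Real.sqrt CT * (T - A) := h2
    _ ≤ Real.sqrt CT * (2 * (x / H)) := by
        apply mul_le_mul_of_nonneg_left _ (Real.sqrt_nonneg _)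
        linarith
    _ = _ := by ring

lemma sum_kk (J : ℕ) : ∑ j ∈ range J, kk j ≤ 18 := by
  have h1 : ∀ j ∈ range J, kk j ≤ if j = 0 then 6 else 6 * (1 / (j : ℝ) ^ 2) := by
    intro j _
    unfold kk
    split_ifs with h
    · subst h; norm_num
    · have hj : (0 : ℝ) < j := by exact_mod_cast Nat.pos_of_ne_zero h
      rw [mul_one_div]
      apply div_le_div_of_nonneg_left (by norm_num) (by positivity)
      linarith
  refine (sum_le_sum h1).trans ?_
  rw [Finset.sum_ite]
  have h2 : ∑ j ∈ (range J).filter (fun j => j = 0), (6 : ℝ) ≤ 6 := by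
    rw [sum_const, nsmul_eq_mul]
    have : ((range J).filter (fun j => j = 0)).card ≤ 1 := by
      apply card_le_one.2
      intro a ha b hb
      rw [(mem_filter.1 ha).2, (mem_filter.1 hb).2]
    have h3 : (((range J).filter (fun j => j = 0)).card : ℝ) ≤ 1 := by exact_mod_cast this
    linarith
  have h3 : ∑ j ∈ (range J).filter (fun j => ¬ j = 0), 6 * (1 / (j : ℝ) ^ 2) ≤ 12 := by
    rw [← mul_sum]
    have h4 : ∑ j ∈ (range J).filter (fun j => ¬ j = 0), 1 / (j : ℝ) ^ 2 ≤
        ∑ j ∈ Icc 1 J, 1 / (j : ℝ) ^ 2 := by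
      apply sum_le_sum_of_subset_of_nonneg
      · intro j hj
        rw [mem_filter, mem_range] at hj
        rw [mem_Icc]
        omega
      · intro j _ _
        positivity
    have := sum_inv_sq_le J
    linarith
  linarith

/-- **The row sums.** -/
lemma row {H : ℝ} (hH : (120000 : ℝ) ≤ H) {p : ℕ} (hp : (4 * H) ^ 41 ≤ p) (S : Finset ℕ)
    (hS : ∀ r ∈ S, r.Prime ∧ p ≤ r) :
    ∑ r ∈ S, Real.log r / r * kk (H * (Real.log r - Real.log p)) ≤ 72 * Real.sqrt CT / H := by
  classical
  have hH0 : 0 < H := by linarith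
  have hCT := CT_pos
  have h4H : (1 : ℝ) ≤ 4 * H := by linarith
  have hp0 : (0 : ℝ) < p := lt_of_lt_of_le (by positivity) hp
  set bin : ℕ → ℕ := fun r => ⌊H * (Real.log r - Real.log p)⌋₊ with hbin
  set J : ℕ := S.sup bin + 1 with hJ
  have hmaps : ∀ r ∈ S, bin r ∈ range J := fun r hr =>
    mem_range.2 (Nat.lt_succ_of_le (le_sup (f := bin) hr))
  rw [← sum_fiberwise_of_maps_to hmaps]
  have hb : ∀ j ∈ range J, ∑ r ∈ S with bin r = j, Real.log r / r *
      kk (H * (Real.log r - Real.log p)) ≤ kk j * (4 * Real.sqrt CT / H) := by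
    intro j _
    set x : ℝ := p * Real.exp (j / H) with hx
    have hxp : (p : ℝ) ≤ x := le_mul_of_one_le_right hp0.le (Real.one_le_exp (by positivity))
    have hx0 : 0 < x := by linarith
    have hfib : ∀ r ∈ S.filter (fun r => bin r = j), r.Prime ∧ x ≤ r ∧
        (r : ℝ) ≤ x * (1 + 1 / (H / 2)) ∧ (j : ℝ) ≤ H * (Real.log r - Real.log p) := by
      intro r hr
      rw [mem_filter] at hr
      obtain ⟨h1, h2⟩ := hS r hr.1
      have hr0 : (0 : ℝ) < r := by exact_mod_cast h1.pos
      have hge : 0 ≤ H * (Real.log r - Real.log p) := by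
        apply mul_nonneg hH0.le
        rw [sub_nonneg]
        exact Real.log_le_log hp0 (by exact_mod_cast h2)
      have h3 : (j : ℝ) ≤ H * (Real.log r - Real.log p) := by
        rw [← hr.2]
        exact Nat.floor_le hge
      have h4 : H * (Real.log r - Real.log p) < j + 1 := by
        rw [← hr.2]
        exact Nat.lt_floor_add_one _
      refine ⟨h1, ?_, ?_, h3⟩
      · rw [hx, ← Real.exp_log hr0, ← Real.exp_log hp0, ← Real.exp_add, Real.exp_log hr0]
        rw [← Real.exp_log hr0]
        apply Real.exp_le_exp.2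
        have : (j : ℝ) / H ≤ Real.log r - Real.log p := by
          rw [div_le_iff₀ hH0]; linarith
        linarith
      · have h5 : Real.log r ≤ Real.log x + 1 / H := by
          rw [hx, Real.log_mul hp0.ne' (Real.exp_pos _).ne', Real.log_exp]
          have : Real.log r - Real.log p ≤ (j + 1) / H := by
            rw [le_div_iff₀ hH0]; linarith
          have e : ((j : ℝ) + 1) / H = j / H + 1 / H := by ring
          linarith
        have h6 : (r : ℝ) ≤ x * Real.exp (1 / H) := by
          rw [← Real.exp_log hr0]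
          calc Real.exp (Real.log r) ≤ Real.exp (Real.log x + 1 / H) := Real.exp_le_exp.2 h5
            _ = x * Real.exp (1 / H) := by rw [Real.exp_add, Real.exp_log hx0]
        refine h6.trans (mul_le_mul_of_nonneg_left ?_ hx0.le)
        have h7 : 1 / H ≤ 1 := by rw [div_le_one hH0]; linarith
        have h8 := Real.exp_bound_div_one_sub_of_interval' (x := 1 / H) (by positivity)
          (by rw [div_lt_one hH0]; linarith)
        refine h8.le.trans ?_
        have h9 : 0 < 1 - 1 / H := by
          have : 1 / H < 1 := by rw [div_lt_one hH0]; linarith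
          linarith
        rw [div_le_iff₀ h9]
        have e : (1 + 1 / (H / 2)) * (1 - 1 / H) = 1 + 1 / H - 2 / H ^ 2 := by
          field_simp
          ring
        rw [e]
        have h10 : 2 / H ^ 2 ≤ 1 / H := by
          rw [div_le_div_iff₀ (by positivity) hH0]
          nlinarith
        linarith
    have h1 : ∀ r ∈ S.filter (fun r => bin r = j), Real.log r / r *
        kk (H * (Real.log r - Real.log p)) ≤ Real.log r * (kk j / x) := by
      intro r hr
      obtain ⟨a1, a2, _, a4⟩ := hfib r hr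
      have hr0 : (0 : ℝ) < r := by exact_mod_cast a1.pos
      have hlr : 0 ≤ Real.log r := Real.log_nonneg (by exact_mod_cast a1.one_le)
      have h2 : kk (H * (Real.log r - Real.log p)) ≤ kk j := by
        unfold kk
        apply div_le_div_of_nonneg_left (by norm_num) (by positivity)
        have : (j : ℝ) ^ 2 ≤ (H * (Real.log r - Real.log p)) ^ 2 :=
          pow_le_pow_left₀ (Nat.cast_nonneg j) a4 2
        linarith
      calc Real.log r / r * kk (H * (Real.log r - Real.log p)) ≤ Real.log r / x * kk j := by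
            apply mul_le_mul _ h2 (kk_nonneg _) (by positivity)
            exact div_le_div_of_nonneg_left hlr hx0 a2
        _ = _ := by ring
    refine (sum_le_sum h1).trans ?_
    rw [← sum_mul]
    have h2 : ∑ r ∈ S.filter (fun r => bin r = j), Real.log r ≤ 2 * Real.sqrt CT * (x / (H / 2)) := by
      apply bt (by linarith : (60000 : ℝ) ≤ H / 2)
      · refine le_trans ?_ (hp.trans hxp)
        apply pow_le_pow_left₀ (by linarith)
        linarith
      · intro r hr
        obtain ⟨a1, a2, a3, _⟩ := hfib r hr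
        exact ⟨a1, a2, a3⟩
    have h3 : 0 ≤ kk j / x := div_nonneg (kk_nonneg _) hx0.le
    calc (∑ r ∈ S.filter (fun r => bin r = j), Real.log r) * (kk j / x) ≤
          (2 * Real.sqrt CT * (x / (H / 2))) * (kk j / x) := mul_le_mul_of_nonneg_right h2 h3
      _ = kk j * (4 * Real.sqrt CT / H) := by
          field_simp
          ring
  refine (sum_le_sum hb).trans ?_
  rw [← sum_mul]
  have h1 := sum_kk J
  calc (∑ j ∈ range J, kk j) * (4 * Real.sqrt CT / H) ≤ 18 * (4 * Real.sqrt CT / H) :=
        mul_le_mul_of_nonneg_right h1 (by positivity)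
    _ = _ := by ring

end Pool.Agent.H439.FA
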