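import Pool.Agent.H439.FA.TailT
import Pool.Agent.H439.LL.Fin

/-!
# Finite sums over the primes of a number field
-/

set_option autoImplicit false

namespace Pool.Agent.H439.FA

open Finset Complex ComplexConjugate Filter Topology MeasureTheory NumberField IsDedekindDomain
  Pool.Agent.TH339.MP Pool.Agent.H439.LS Pool.Agent.H439.LL Pool.Agent.H439.TA

section
variable {K : Type} [Field K] [NumberField K]

/-- the terms of the series -/
noncomputable def ft (a : HeightOneSpectrum (𝓞 K) → ℂ) (g : ℕ → ℂ) (ε : ℝ)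
    (v : HeightOneSpectrum (𝓞 K)) : ℂ := a v * (g (nm v) * (wt ε (nm v) : ℂ))

/-- the sum of the `p^{-3/2}` -/
noncomputable def c₂ : ℝ := ∑' p : Nat.Primes, ((p : ℕ) : ℝ) ^ (-(3 / 2 : ℝ))

lemma c₂_nonneg : 0 ≤ c₂ := tsum_nonneg fun p => by positivity

lemma sum_c₂ (S : Finset Nat.Primes) : ∑ p ∈ S, ((p : ℕ) : ℝ) ^ (-(3 / 2 : ℝ)) ≤ c₂ :=
  (Nat.Primes.summable_rpow.2 (by norm_num)).sum_le_tsum _ fun p _ => by positivity

lemma nm_pos (v : HeightOneSpectrum (𝓞 K)) : 0 < nm v := by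
  have := nm_ge_two v
  have h0 : (0 : ℝ) < (nm v : ℝ) := by linarith
  exact_mod_cast h0

lemma norm_ft {a : HeightOneSpectrum (𝓞 K) → ℂ} {M : ℝ} (ha : ∀ v, ‖a v‖ ≤ M) {g : ℕ → ℂ}
    (hg : PM g) (ε : ℝ) (v : HeightOneSpectrum (𝓞 K)) : ‖ft a g ε v‖ ≤ M * wt ε (nm v) := by
  unfold ft
  rw [norm_mul, norm_mul, Complex.norm_real, Real.norm_of_nonneg (wt_nonneg _ _)]
  have h1 := mul_le_mul_of_nonneg_right (norm_g_nm hg v) (wt_nonneg ε (nm v))
  rw [one_mul] at h1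
  exact mul_le_mul (ha v) h1 (mul_nonneg (norm_nonneg _) (wt_nonneg _ _))
    ((norm_nonneg _).trans (ha v))

/-- the terms of degree at least two -/
lemma wt_high {ε : ℝ} (hε : 0 ≤ ε) {Y : ℕ} (hY : 1 ≤ Y) (v : HeightOneSpectrum (𝓞 K))
    (hv : Y < nm v) (h2 : dg v ≠ 1) :
    wt ε (nm v) ≤ 8 * (Y : ℝ) ^ (-(1 / 8 : ℝ)) * ((pr v : ℕ) : ℝ) ^ (-(3 / 2 : ℝ)) := by
  have hn := nm_pos v
  have hn0 : (0 : ℝ) < nm v := by exact_mod_cast hn
  have hY0 : (0 : ℝ) < Y := by exact_mod_cast hY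
  have hp0 : (0 : ℝ) < ((pr v : ℕ) : ℝ) := by exact_mod_cast (pr v).2.pos
  have hp1 : (1 : ℝ) ≤ ((pr v : ℕ) : ℝ) := by exact_mod_cast (pr v).2.one_le
  refine (wt_le hε hn).trans ?_
  have h3 := Real.log_le_rpow_div hn0.le (by norm_num : (0 : ℝ) < 1 / 8)
  have h4 : Real.log (nm v) / nm v ≤ 8 * ((nm v : ℝ) ^ (-(1 / 8 : ℝ)) * (nm v : ℝ) ^ (-(3 / 4 : ℝ))) := by
    rw [div_le_iff₀ hn0]
    refine h3.trans (le_of_eq ?_)
    have e : (nm v : ℝ) = (nm v : ℝ) ^ (1 : ℝ) := (Real.rpow_one _).symm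
    calc (nm v : ℝ) ^ (1 / 8 : ℝ) / (1 / 8) = 8 * (nm v : ℝ) ^ (1 / 8 : ℝ) := by ring
      _ = 8 * ((nm v : ℝ) ^ (-(1 / 8 : ℝ)) * (nm v : ℝ) ^ (-(3 / 4 : ℝ)) * (nm v : ℝ) ^ (1 : ℝ)) := by
          rw [← Real.rpow_add hn0, ← Real.rpow_add hn0]
          norm_num
      _ = _ := by rw [← e]; ring
  refine h4.trans ?_
  rw [mul_assoc]
  apply mul_le_mul_of_nonneg_left _ (by norm_num)
  apply mul_le_mul
  · exact Real.rpow_le_rpow_of_nonpos hY0 (by exact_mod_cast hv.le) (by norm_num)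
  · rw [nm_eq, Nat.cast_pow, ← Real.rpow_natCast, ← Real.rpow_mul hp0.le]
    apply Real.rpow_le_rpow_of_exponent_le hp1
    have h5 : 2 ≤ dg v := by have := dg_pos v; omega
    have h6 : (2 : ℝ) ≤ (dg v : ℝ) := by exact_mod_cast h5
    linarith
  · positivity
  · positivity

open Classical in
/-- the coefficients at the primes -/
noncomputable def cT (a : HeightOneSpectrum (𝓞 K) → ℂ) (T : Finset (HeightOneSpectrum (𝓞 K)))
    (p : ℕ) : ℂ := ∑ v ∈ T with dg v = 1 ∧ ((pr v : Nat.Primes) : ℕ) = p, a v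

lemma norm_cT {a : HeightOneSpectrum (𝓞 K) → ℂ} {M : ℝ} (hM : 0 ≤ M) (ha : ∀ v, ‖a v‖ ≤ M)
    (T : Finset (HeightOneSpectrum (𝓞 K))) {p : ℕ} (hp : p.Prime) :
    ‖cT a T p‖ ≤ (Module.finrank ℚ K : ℝ) * M := by
  classical
  unfold cT
  refine (norm_sum_le_of_le _ fun v _ => ha v).trans ?_
  rw [sum_const, nsmul_eq_mul]
  apply mul_le_mul_of_nonneg_right _ hM
  refine le_trans ?_ (card_Sp (K := K) ⟨p, hp⟩)
  have h1 : (T.filter fun v => dg v = 1 ∧ ((pr v : Nat.Primes) : ℕ) = p) ⊆ Sp ⟨p, hp⟩ := by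
    intro v hv
    rw [mem_filter] at hv
    rw [mem_Sp]
    exact Subtype.ext hv.2.2
  exact_mod_cast card_le_card h1

/-- **The reduction to the primes.** -/
lemma reduce {a : HeightOneSpectrum (𝓞 K) → ℂ} {M : ℝ} (hM : 0 ≤ M) (ha : ∀ v, ‖a v‖ ≤ M) {Y : ℕ}
    (hY : 1 ≤ Y) (T : Finset (HeightOneSpectrum (𝓞 K))) (hT : ∀ v ∈ T, Y < nm v) :
    ∃ S : Finset ℕ, (∀ p ∈ S, p.Prime ∧ Y < p) ∧ ∀ (g : ℕ → ℂ) (ε : ℝ), PM g → 0 ≤ ε →
      ‖∑ v ∈ T, ft a g ε v - ∑ p ∈ S, cT a T p * (g p * (wt ε p : ℂ))‖ ≤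
        8 * ((Module.finrank ℚ K : ℝ) * M) * c₂ * (Y : ℝ) ^ (-(1 / 8 : ℝ)) := by
  classical
  have hY0 : (0 : ℝ) < Y := by exact_mod_cast hY
  refine ⟨(T.filter fun v => dg v = 1).image fun v => ((pr v : Nat.Primes) : ℕ), ?_, ?_⟩
  · intro p hp
    rw [mem_image] at hp
    obtain ⟨v, hv, rfl⟩ := hp
    rw [mem_filter] at hv
    refine ⟨(pr v).2, ?_⟩
    have h1 := hT v hv.1
    rw [nm_eq, hv.2, pow_one] at h1
    exact h1
  · intro g ε hg hε
    have h1 : ∑ p ∈ (T.filter fun v => dg v = 1).image (fun v => ((pr v : Nat.Primes) : ℕ)),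
        cT a T p * (g p * (wt ε p : ℂ)) = ∑ v ∈ T with dg v = 1, ft a g ε v := by
      rw [← sum_fiberwise_of_maps_to (s := T.filter fun v => dg v = 1)
        (t := (T.filter fun v => dg v = 1).image (fun v => ((pr v : Nat.Primes) : ℕ)))
        (g := fun v => ((pr v : Nat.Primes) : ℕ)) (fun v hv => mem_image_of_mem _ hv)]
      apply sum_congr rfl
      intro p _
      unfold cT
      rw [sum_mul, filter_filter]
      apply sum_congr rfl
      intro v hv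
      rw [mem_filter] at hv
      unfold ft
      have e : nm v = p := by rw [nm_eq, hv.2.1, pow_one, hv.2.2]
      rw [e]
    rw [h1, ← sum_filter_add_sum_filter_not T (fun v => dg v = 1), add_sub_cancel_left]
    have h2 : ∀ v ∈ T.filter (fun v => ¬ dg v = 1), ‖ft a g ε v‖ ≤
        (8 * M * (Y : ℝ) ^ (-(1 / 8 : ℝ))) * ((pr v : ℕ) : ℝ) ^ (-(3 / 2 : ℝ)) := by
      intro v hv
      rw [mem_filter] at hv
      refine (norm_ft ha hg ε v).trans ?_
      have := mul_le_mul_of_nonneg_left (wt_high hε hY v (hT v hv.1) hv.2) hM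
      refine this.trans (le_of_eq ?_)
      ring
    refine (norm_sum_le_of_le _ h2).trans ?_
    rw [← mul_sum]
    have h3 : ∑ v ∈ T.filter (fun v => ¬ dg v = 1), ((pr v : ℕ) : ℝ) ^ (-(3 / 2 : ℝ)) ≤
        (Module.finrank ℚ K : ℝ) * c₂ := by
      rw [← sum_fiberwise_of_maps_to (s := T.filter fun v => ¬ dg v = 1)
        (t := (T.filter fun v => ¬ dg v = 1).image (fun v => pr v))
        (g := fun v => pr v) (fun v hv => mem_image_of_mem _ hv)]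
      have h4 : ∀ p ∈ (T.filter fun v => ¬ dg v = 1).image (fun v => pr v),
          ∑ v ∈ (T.filter fun v => ¬ dg v = 1) with pr v = p, ((pr v : ℕ) : ℝ) ^ (-(3 / 2 : ℝ)) ≤
            (Module.finrank ℚ K : ℝ) * ((p : ℕ) : ℝ) ^ (-(3 / 2 : ℝ)) := by
        intro p _
        have h5 : ∀ v ∈ (T.filter fun v => ¬ dg v = 1).filter (fun v => pr v = p),
            ((pr v : ℕ) : ℝ) ^ (-(3 / 2 : ℝ)) = ((p : ℕ) : ℝ) ^ (-(3 / 2 : ℝ)) := by
          intro v hv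
          rw [(mem_filter.1 hv).2]
        rw [sum_congr rfl h5, sum_const, nsmul_eq_mul]
        apply mul_le_mul_of_nonneg_right _ (by positivity)
        refine le_trans ?_ (card_Sp (K := K) p)
        have h6 : (T.filter fun v => ¬ dg v = 1).filter (fun v => pr v = p) ⊆ Sp p := by
          intro v hv
          rw [mem_Sp]
          exact (mem_filter.1 hv).2
        exact_mod_cast card_le_card h6
      refine (sum_le_sum h4).trans ?_
      rw [← mul_sum]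
      exact mul_le_mul_of_nonneg_left (sum_c₂ _) (by positivity)
    calc _ ≤ (8 * M * (Y : ℝ) ^ (-(1 / 8 : ℝ))) * ((Module.finrank ℚ K : ℝ) * c₂) :=
          mul_le_mul_of_nonneg_left h3 (by positivity)
      _ = _ := by ring

/-- the bound for the mean square, without the terms depending on `H` -/
noncomputable def dl (n : ℝ) (Y : ℕ) : ℝ :=
  n ^ 2 * (3072 / Real.sqrt Y + 128 * c₂ ^ 2 * (Y : ℝ) ^ (-(1 / 4 : ℝ)))

lemma dl_nonneg (n : ℝ) (Y : ℕ) : 0 ≤ dl n Y := by unfold dl; positivity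

lemma tendsto_dl (n : ℝ) : Tendsto (dl n) atTop (𝓝 0) := by
  unfold dl
  have h1 : Tendsto (fun Y : ℕ => 3072 / Real.sqrt (Y : ℝ)) atTop (𝓝 0) :=
    Tendsto.const_div_atTop (Real.tendsto_sqrt_atTop.comp tendsto_natCast_atTop_atTop) _
  have h2 : Tendsto (fun Y : ℕ => 128 * c₂ ^ 2 * (Y : ℝ) ^ (-(1 / 4 : ℝ))) atTop
      (𝓝 (128 * c₂ ^ 2 * 0)) :=
    ((tendsto_rpow_neg_atTop (by norm_num)).comp tendsto_natCast_atTop_atTop).const_mul _
  have h3 := (h1.add h2).const_mul (n ^ 2)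
  simpa using h3

lemma sq_rpow (Y : ℕ) : ((Y : ℝ) ^ (-(1 / 8 : ℝ))) ^ 2 = (Y : ℝ) ^ (-(1 / 4 : ℝ)) := by
  rw [← Real.rpow_natCast, ← Real.rpow_mul (Nat.cast_nonneg _)]
  norm_num

lemma continuous_ft_ph (a : HeightOneSpectrum (𝓞 K) → ℂ) (ε : ℝ) (v : HeightOneSpectrum (𝓞 K)) :
    Continuous fun t : ℝ => ft a (ph (-t)) ε v := by
  unfold ft
  exact continuous_const.mul ((continuous_ph (nm_pos v)).mul continuous_const)

/-- **The mean square of a finite part of the tail, in the `t`-aspect.** -/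
lemma fin_t {H : ℝ} (hH : (120000 : ℝ) ≤ H) {ε : ℝ} (hε : 0 < ε) (hε1 : ε ≤ 1 / 2) (U : ℝ)
    {a : HeightOneSpectrum (𝓞 K) → ℂ} {M : ℝ} (hM : 0 ≤ M) (ha : ∀ v, ‖a v‖ ≤ M) {Y : ℕ} (hY : 1 ≤ Y)
    (T : Finset (HeightOneSpectrum (𝓞 K))) (hT : ∀ v ∈ T, Y < nm v) :
    ∫ t, ‖∑ v ∈ T, ft a (ph (-t)) ε v‖ ^ 2 ∂(tau U H) ≤
      dl ((Module.finrank ℚ K : ℝ) * M) Y +
        2 * ((Module.finrank ℚ K : ℝ) * M) ^ 2 * (CA * (Real.log H ^ 4 / H) + CA / (H * ε)) := by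
  classical
  have hH0 : 0 < H := by linarith
  have hprob := prob_tau U hH0
  obtain ⟨S, hS, hred⟩ := reduce hM ha hY T hT
  set m : ℝ := (Module.finrank ℚ K : ℝ) * M with hm
  set c := cT a T with hc
  have hnc : ∀ p : ℕ, p.Prime → ‖c p‖ ≤ m := fun p hp => norm_cT hM ha T hp
  have hm0 : 0 ≤ m := (norm_nonneg _).trans (hnc 2 Nat.prime_two)
  have h1 := fin_ms hH hε hε1 U hm0 hnc hY S hS
  set R : ℝ := 8 * m * c₂ * (Y : ℝ) ^ (-(1 / 8 : ℝ)) with hR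
  have hcont0 : Continuous fun t : ℝ => ‖∑ v ∈ T, ft a (ph (-t)) ε v‖ ^ 2 := by
    apply Continuous.pow
    apply Continuous.norm
    apply continuous_finsetSum
    intro v _
    exact continuous_ft_ph a ε v
  have hcont1 : Continuous fun t : ℝ => ‖∑ p ∈ S, c p * (ph (-t) p * (wt ε p : ℂ))‖ ^ 2 := by
    apply Continuous.pow
    apply Continuous.norm
    apply continuous_finsetSum
    intro p hp
    exact continuous_const.mul ((continuous_ph (hS p hp).1.pos).mul continuous_const)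
  have hint : ∀ f : ℝ → ℝ, Continuous f → Integrable f (tau U H) := by
    intro f hf
    unfold tau
    apply Integrable.smul_measure
    · exact hf.continuousOn.integrableOn_compact isCompact_Icc
    · exact ENNReal.inv_ne_top.2 (by simpa using hH0)
  have h2 : ∫ t, ‖∑ v ∈ T, ft a (ph (-t)) ε v‖ ^ 2 ∂(tau U H) ≤
      ∫ t, (2 * ‖∑ p ∈ S, c p * (ph (-t) p * (wt ε p : ℂ))‖ ^ 2 + 2 * R ^ 2) ∂(tau U H) := by
    apply integral_mono (hint _ hcont0)
      (((hint _ hcont1).const_mul 2).add (integrable_const _))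
    intro t
    have h3 := hred (ph (-t)) ε (pm_ph t) hε.le
    change _ ≤ 2 * ‖∑ p ∈ S, c p * (ph (-t) p * (wt ε p : ℂ))‖ ^ 2 + 2 * R ^ 2
    set A := ∑ v ∈ T, ft a (ph (-t)) ε v with hA
    set B := ∑ p ∈ S, c p * (ph (-t) p * (wt ε p : ℂ)) with hB
    have h4 : ‖A‖ ≤ ‖B‖ + R := by
      have e : A = B + (A - B) := by ring
      rw [e]
      exact (norm_add_le _ _).trans (by linarith)
    have h5 := pow_le_pow_left₀ (norm_nonneg _) h4 2
    nlinarith [sq_nonneg (‖B‖ - R)]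
  refine h2.trans ?_
  rw [integral_add ((hint _ hcont1).const_mul 2) (integrable_const _), integral_const_mul,
    integral_const]
  have h6 : R ^ 2 = 64 * m ^ 2 * c₂ ^ 2 * (Y : ℝ) ^ (-(1 / 4 : ℝ)) := by
    rw [hR, mul_pow, sq_rpow]
    ring
  have h7 : (tau U H).real Set.univ = 1 := by simp
  rw [h7, one_smul, h6]
  unfold dl
  have e : m ^ 2 * (3072 / Real.sqrt (Y : ℝ) + 128 * c₂ ^ 2 * (Y : ℝ) ^ (-(1 / 4 : ℝ))) +
      2 * m ^ 2 * (CA * (Real.log H ^ 4 / H) + CA / (H * ε)) =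
      2 * (m ^ 2 * (1536 / Real.sqrt Y + CA * (Real.log H ^ 4 / H) + CA / (H * ε))) +
        2 * (64 * m ^ 2 * c₂ ^ 2 * (Y : ℝ) ^ (-(1 / 4 : ℝ))) := by ring
  rw [e]
  linarith

/-- **The mean square of a finite part of the tail, for the random function.** -/
lemma fin_x {Ω : Type} [MeasurableSpace Ω] {μ : Measure Ω} {X : ℕ → Ω → ℂ} (hX : Steinhaus μ X)
    {ε : ℝ} (hε : 0 ≤ ε)
    {a : HeightOneSpectrum (𝓞 K) → ℂ} {M : ℝ} (hM : 0 ≤ M) (ha : ∀ v, ‖a v‖ ≤ M) {Y : ℕ} (hY : 1 ≤ Y)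
    (T : Finset (HeightOneSpectrum (𝓞 K))) (hT : ∀ v ∈ T, Y < nm v) :
    ∫ ω, ‖∑ v ∈ T, ft a (gX 1 X ω) ε v‖ ^ 2 ∂μ ≤ dl ((Module.finrank ℚ K : ℝ) * M) Y := by
  classical
  have hprob := hX.prob
  obtain ⟨S, hS, hred⟩ := reduce hM ha hY T hT
  set m : ℝ := (Module.finrank ℚ K : ℝ) * M with hm
  set c := cT a T with hc
  have hnc : ∀ p : ℕ, p.Prime → ‖c p‖ ≤ m := fun p hp => norm_cT hM ha T hp
  have hm0 : 0 ≤ m := (norm_nonneg _).trans (hnc 2 Nat.prime_two)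
  set b : ℕ → ℂ := fun p => c p * (wt ε p : ℂ) with hb
  have hsum : ∀ ω, ∑ p ∈ S, c p * (gX 1 X ω p * (wt ε p : ℂ)) = ∑ p ∈ S, b p * gX 1 X ω p := by
    intro ω
    apply sum_congr rfl
    intro p _
    simp only [hb]
    ring
  have h1 := mean_sq_X hX 1 S (fun p hp => (hS p hp).1) b
  have h2 : ∑ p ∈ S, ‖b p‖ ^ 2 ≤ m ^ 2 * (32 / Real.sqrt Y) := by
    have h3 : ∀ p ∈ S, ‖b p‖ ^ 2 ≤ m ^ 2 * wt ε p ^ 2 := by
      intro p hp
      simp only [hb]
      rw [norm_mul, Complex.norm_real, Real.norm_of_nonneg (wt_nonneg _ _), ← mul_pow]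
      apply pow_le_pow_left₀ (mul_nonneg (norm_nonneg _) (wt_nonneg _ _))
      exact mul_le_mul_of_nonneg_right (hnc p (hS p hp).1) (wt_nonneg _ _)
    refine (sum_le_sum h3).trans ?_
    rw [← mul_sum]
    apply mul_le_mul_of_nonneg_left _ (by positivity)
    exact sum_wt_sq hY hε S fun n hn => (hS n hn).2
  set R : ℝ := 8 * m * c₂ * (Y : ℝ) ^ (-(1 / 8 : ℝ)) with hR
  have hR0 : 0 ≤ R := by have := c₂_nonneg; positivity
  have hm1 : Measurable fun ω => ∑ p ∈ S, b p * gX 1 X ω p := by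
    apply Finset.measurable_sum
    intro p hp
    exact (measurable_gX hX 1 (hS p hp).1).const_mul _
  have hmv : ∀ v : HeightOneSpectrum (𝓞 K), Measurable fun ω => ft a (gX 1 X ω) ε v := by
    intro v
    unfold ft
    have e : ∀ ω, gX 1 X ω (nm v) = gX 1 X ω (pr v : Nat.Primes) ^ dg v := by
      intro ω
      rw [nm_eq, (pm_gX hX 1 ω).pow _ (pr v).2]
    simp_rw [e]
    exact (((measurable_gX hX 1 (pr v).2).pow_const _).mul_const _).const_mul _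
  have hm2 : Measurable fun ω => ∑ v ∈ T, ft a (gX 1 X ω) ε v := Finset.measurable_sum _ fun v _ => hmv v
  have hi1 : Integrable (fun ω => ‖∑ p ∈ S, b p * gX 1 X ω p‖ ^ 2) μ := by
    refine Integrable.of_bound (hm1.norm.pow_const 2).aestronglyMeasurable
      ((∑ p ∈ S, ‖b p‖) ^ 2) (Eventually.of_forall fun ω => ?_)
    rw [norm_pow, norm_norm]
    apply pow_le_pow_left₀ (norm_nonneg _)
    apply norm_sum_le_of_le
    intro p hp
    rw [norm_mul]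
    exact mul_le_of_le_one_right (norm_nonneg _) ((pm_gX hX 1 ω).le p (hS p hp).1)
  have hi2 : Integrable (fun ω => ‖∑ v ∈ T, ft a (gX 1 X ω) ε v‖ ^ 2) μ := by
    refine Integrable.of_bound (hm2.norm.pow_const 2).aestronglyMeasurable
      ((∑ v ∈ T, M * wt ε (nm v)) ^ 2) (Eventually.of_forall fun ω => ?_)
    rw [norm_pow, norm_norm]
    apply pow_le_pow_left₀ (norm_nonneg _)
    exact norm_sum_le_of_le _ fun v _ => norm_ft ha (pm_gX hX 1 ω) ε v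
  have h3 : ∫ ω, ‖∑ v ∈ T, ft a (gX 1 X ω) ε v‖ ^ 2 ∂μ ≤
      ∫ ω, (2 * ‖∑ p ∈ S, b p * gX 1 X ω p‖ ^ 2 + 2 * R ^ 2) ∂μ := by
    apply integral_mono hi2 ((hi1.const_mul 2).add (integrable_const _))
    intro ω
    have h4 := hred (gX 1 X ω) ε (pm_gX hX 1 ω) hε
    rw [hsum] at h4
    change _ ≤ 2 * ‖∑ p ∈ S, b p * gX 1 X ω p‖ ^ 2 + 2 * R ^ 2
    set A := ∑ v ∈ T, ft a (gX 1 X ω) ε v with hA
    set B := ∑ p ∈ S, b p * gX 1 X ω p with hB
    have h5 : ‖A‖ ≤ ‖B‖ + R := by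
      have e : A = B + (A - B) := by ring
      rw [e]
      exact (norm_add_le _ _).trans (by linarith)
    have h6 := pow_le_pow_left₀ (norm_nonneg _) h5 2
    nlinarith [sq_nonneg (‖B‖ - R)]
  refine h3.trans ?_
  rw [integral_add (hi1.const_mul 2) (integrable_const _), integral_const_mul, integral_const]
  have h6 : R ^ 2 = 64 * m ^ 2 * c₂ ^ 2 * (Y : ℝ) ^ (-(1 / 4 : ℝ)) := by
    rw [hR, mul_pow, sq_rpow]
    ring
  have h7 : μ.real Set.univ = 1 := by simp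
  rw [h7, one_smul, h6]
  unfold dl
  have e : m ^ 2 * (3072 / Real.sqrt (Y : ℝ) + 128 * c₂ ^ 2 * (Y : ℝ) ^ (-(1 / 4 : ℝ))) =
      2 * (m ^ 2 * (1536 / Real.sqrt Y)) +
        2 * (64 * m ^ 2 * c₂ ^ 2 * (Y : ℝ) ^ (-(1 / 4 : ℝ))) := by ring
  rw [e]
  have h8 : m ^ 2 * (32 / Real.sqrt (Y : ℝ)) ≤ m ^ 2 * (1536 / Real.sqrt Y) := by
    apply mul_le_mul_of_nonneg_left _ (by positivity)
    apply div_le_div_of_nonneg_right (by norm_num) (Real.sqrt_nonneg _)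
  linarith

end

end Pool.Agent.H439.FA
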