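import Pool.Agent.H439.FA.TorusF
import Pool.Agent.H439.FA.Abs

/-!
# The joint limit law
-/

set_option autoImplicit false
set_option linter.unusedSectionVars false

namespace Pool.Agent.H439.FA

open Finset Complex ComplexConjugate Filter Topology MeasureTheory NumberField IsDedekindDomain
  Pool.Agent.TH339.MP Pool.Agent.H439.LS Pool.Agent.H439.LL Pool.Agent.H439.TA

lemma sup_sq {r : ℕ} (z : Fin r → ℂ) : ‖z‖ ^ 2 ≤ ∑ k, ‖z k‖ ^ 2 := by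
  have h0 : 0 ≤ ∑ k, ‖z k‖ ^ 2 := sum_nonneg fun k _ => by positivity
  have h1 : ‖z‖ ≤ Real.sqrt (∑ k, ‖z k‖ ^ 2) := by
    rw [pi_norm_le_iff_of_nonneg (Real.sqrt_nonneg _)]
    intro k
    apply Real.le_sqrt_of_sq_le
    exact single_le_sum (f := fun k => ‖z k‖ ^ 2) (fun k _ => by positivity) (mem_univ k)
  have h2 := pow_le_pow_left₀ (norm_nonneg _) h1 2
  rwa [Real.sq_sqrt h0] at h2

section
variable {K : Type} [Field K] [NumberField K] {r : ℕ}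

/-- the vector of the series -/
noncomputable def FSV (a : Fin r → HeightOneSpectrum (𝓞 K) → ℂ) (g : ℕ → ℂ) (ε : ℝ) :
    Fin r → ℂ := fun k => FS (a k) g ε

lemma norm_FS {a : HeightOneSpectrum (𝓞 K) → ℂ} {M : ℝ} (hM : 0 ≤ M) (ha : ∀ v, ‖a v‖ ≤ M)
    {g : ℕ → ℂ} (hg : PM g) {ε : ℝ} (hε : 0 < ε) :
    ‖FS a g ε‖ ≤ M * ∑' v : HeightOneSpectrum (𝓞 K), wt ε (nm v) :=
  le_of_tendsto' (tendsto_FY ha hg hε).norm fun N => norm_FY' hM ha hg hε N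

/-- the mean squares of the components and of the vector -/
lemma vec_sq {Ω : Type} [MeasurableSpace Ω] {μ : Measure Ω} [IsProbabilityMeasure μ]
    {Z W : Ω → Fin r → ℂ} {d : ℝ} (hZ : Measurable Z) (hW : Measurable W)
    (hi : ∀ k, Integrable (fun ω => ‖Z ω k - W ω k‖ ^ 2) μ)
    (h : ∀ k, ∫ ω, ‖Z ω k - W ω k‖ ^ 2 ∂μ ≤ d) :
    Integrable (fun ω => ‖Z ω - W ω‖ ^ 2) μ ∧ ∫ ω, ‖Z ω - W ω‖ ^ 2 ∂μ ≤ r * d := by
  have hs : Integrable (fun ω => ∑ k, ‖Z ω k - W ω k‖ ^ 2) μ := integrable_finsetSum _ fun k _ => hi k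
  have h1 : Integrable (fun ω => ‖Z ω - W ω‖ ^ 2) μ := by
    refine hs.mono' ((hZ.sub hW).norm.pow_const 2).aestronglyMeasurable
      (Eventually.of_forall fun ω => ?_)
    rw [norm_pow, norm_norm]
    exact sup_sq (Z ω - W ω)
  refine ⟨h1, ?_⟩
  calc ∫ ω, ‖Z ω - W ω‖ ^ 2 ∂μ ≤ ∫ ω, ∑ k, ‖Z ω k - W ω k‖ ^ 2 ∂μ :=
        integral_mono h1 hs fun ω => sup_sq (Z ω - W ω)
    _ = ∑ k, ∫ ω, ‖Z ω k - W ω k‖ ^ 2 ∂μ := integral_finsetSum _ fun k _ => hi k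
    _ ≤ ∑ _k : Fin r, d := sum_le_sum fun k _ => h k
    _ = r * d := by simp

lemma meas_FSV_t {a : Fin r → HeightOneSpectrum (𝓞 K) → ℂ} {M : ℝ} (ha : ∀ k v, ‖a k v‖ ≤ M)
    {ε : ℝ} (hε : 0 < ε) : Measurable fun t : ℝ => FSV a (ph (-t)) ε :=
  measurable_pi_iff.2 fun k => meas_FS_t (ha k) hε

lemma meas_FV_t (a : Fin r → HeightOneSpectrum (𝓞 K) → ℂ) (ε : ℝ) (Y : ℕ) :
    Measurable fun t : ℝ => FV a (ph (-t)) ε Y :=
  measurable_pi_iff.2 fun k => (cont_FY (a k) ε Y).measurable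

/-- the mean square of the tail of the vector, in the `t`-aspect -/
lemma tail_t_vec {H : ℝ} (hH : (120000 : ℝ) ≤ H) {ε : ℝ} (hε : 0 < ε) (hε1 : ε ≤ 1 / 2) (U : ℝ)
    {a : Fin r → HeightOneSpectrum (𝓞 K) → ℂ} {M : ℝ} (hM : 0 ≤ M) (ha : ∀ k v, ‖a k v‖ ≤ M)
    {Y : ℕ} (hY : 1 ≤ Y) :
    Integrable (fun t => ‖FSV a (ph (-t)) ε - FV a (ph (-t)) ε Y‖ ^ 2) (tau U H) ∧
    ∫ t, ‖FSV a (ph (-t)) ε - FV a (ph (-t)) ε Y‖ ^ 2 ∂(tau U H) ≤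
      r * (dl ((Module.finrank ℚ K : ℝ) * M) Y +
        2 * ((Module.finrank ℚ K : ℝ) * M) ^ 2 * (CA * (Real.log H ^ 4 / H) + CA / (H * ε))) := by
  have hH0 : 0 < H := by linarith
  have hprob := prob_tau U hH0
  apply vec_sq (meas_FSV_t ha hε) (meas_FV_t a ε Y)
  · intro k
    refine Integrable.of_bound (C := (M * ∑' v : HeightOneSpectrum (𝓞 K), wt ε (nm v) +
      M * ∑' v : HeightOneSpectrum (𝓞 K), wt ε (nm v)) ^ 2) ?_ (Eventually.of_forall fun t => ?_)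
    · exact (((meas_FS_t (ha k) hε).sub (cont_FY (a k) ε Y).measurable).norm.pow_const 2).aestronglyMeasurable
    · rw [norm_pow, norm_norm]
      apply pow_le_pow_left₀ (norm_nonneg _)
      exact (norm_sub_le _ _).trans (add_le_add (norm_FS hM (ha k) (pm_ph t) hε)
        (norm_FY' hM (ha k) (pm_ph t) hε Y))
  · intro k
    exact tail_t hH hε hε1 U hM (ha k) hY

/-- the `t`-aspect: the tail is small in mean square -/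
lemma small_t {a : Fin r → HeightOneSpectrum (𝓞 K) → ℂ} {M : ℝ} (hM : 0 ≤ M)
    (ha : ∀ k v, ‖a k v‖ ≤ M) {δ : ℝ} (hδ : 0 < δ) :
    ∀ᶠ Y : ℕ in atTop, ∃ T₀ : ℝ, ∀ (U H ε : ℝ), 0 < ε → ε ≤ 1 / 2 → T₀ ≤ H * ε →
      (120000 : ℝ) ≤ H ∧
      Integrable (fun t => ‖FSV a (ph (-t)) ε - FV a (ph (-t)) ε Y‖ ^ 2) (tau U H) ∧
      ∫ t, ‖FSV a (ph (-t)) ε - FV a (ph (-t)) ε Y‖ ^ 2 ∂(tau U H) ≤ δ := by
  set m : ℝ := (Module.finrank ℚ K : ℝ) * M with hm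
  have hCA := CA_pos
  have h1 : Tendsto (fun Y : ℕ => (r : ℝ) * dl m Y) atTop (𝓝 (r * 0)) :=
    (tendsto_dl m).const_mul _
  rw [mul_zero] at h1
  filter_upwards [h1.eventually (gt_mem_nhds (half_pos hδ)), eventually_ge_atTop 1] with Y hY1 hY2
  set Q : ℝ := (r : ℝ) * (2 * m ^ 2) * CA with hQ
  have hQ0 : 0 ≤ Q := by positivity
  have h2 : Tendsto (fun H : ℝ => Real.log H ^ 4 / H) atTop (𝓝 0) := by
    have h3 := (isLittleO_log_rpow_rpow_atTop (4 : ℝ) one_pos).tendsto_div_nhds_zero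
    refine h3.congr' ?_
    filter_upwards with H
    rw [Real.rpow_one]
    congr 1
    exact_mod_cast Real.rpow_natCast (Real.log H) 4
  have h3 : Tendsto (fun H : ℝ => Q * (Real.log H ^ 4 / H)) atTop (𝓝 (Q * 0)) := h2.const_mul _
  rw [mul_zero] at h3
  have h4 : Tendsto (fun T : ℝ => Q / T) atTop (𝓝 0) := tendsto_const_nhds.div_atTop tendsto_id
  obtain ⟨H₁, hH₁⟩ := Filter.eventually_atTop.1 (h3.eventually (gt_mem_nhds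
    (by positivity : 0 < δ / 4)))
  obtain ⟨T₁, hT₁⟩ := Filter.eventually_atTop.1 (h4.eventually (gt_mem_nhds
    (by positivity : 0 < δ / 4)))
  refine ⟨max (max H₁ T₁) 120000, fun U H ε hε hε1 hT => ?_⟩
  have hT0 : (120000 : ℝ) ≤ H * ε := (le_max_right _ _).trans hT
  have hH0 : 0 < H := by
    by_contra hcon
    rw [not_lt] at hcon
    nlinarith
  have hHT : H * ε ≤ H := by nlinarith
  have hH : (120000 : ℝ) ≤ H := hT0.trans hHT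
  have h5 := hH₁ H (((le_max_left _ _).trans (le_max_left _ _)).trans (hT.trans hHT))
  have h6 := hT₁ (H * ε) (((le_max_right _ _).trans (le_max_left _ _)).trans hT)
  obtain ⟨h7, h8⟩ := tail_t_vec hH hε hε1 U hM ha hY2
  refine ⟨hH, h7, h8.trans ?_⟩
  rw [← hm]
  have e : (r : ℝ) * (dl m Y + 2 * m ^ 2 * (CA * (Real.log H ^ 4 / H) + CA / (H * ε))) =
      r * dl m Y + Q * (Real.log H ^ 4 / H) + Q / (H * ε) := by
    rw [hQ]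
    ring
  rw [e]
  linarith

section
variable {Ω : Type} [MeasurableSpace Ω] {μ : Measure Ω} {X : ℕ → Ω → ℂ}

lemma meas_FV (hX : Steinhaus μ X) (a : Fin r → HeightOneSpectrum (𝓞 K) → ℂ) (ε : ℝ) (Y : ℕ) :
    Measurable fun ω => FV a (gX 1 X ω) ε Y :=
  measurable_pi_iff.2 fun k => meas_FY hX (a k) ε Y

lemma meas_FSV (hX : Steinhaus μ X) {a : Fin r → HeightOneSpectrum (𝓞 K) → ℂ} {M : ℝ}
    (ha : ∀ k v, ‖a k v‖ ≤ M) {ε : ℝ} (hε : 0 < ε) : Measurable fun ω => FSV a (gX 1 X ω) ε :=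
  measurable_pi_iff.2 fun k => meas_FS hX (ha k) hε

/-- the random series: the tail is small in mean square -/
lemma tail_x_vec (hX : Steinhaus μ X) {ε : ℝ} (hε : 0 < ε)
    {a : Fin r → HeightOneSpectrum (𝓞 K) → ℂ} {M : ℝ} (hM : 0 ≤ M) (ha : ∀ k v, ‖a k v‖ ≤ M)
    {Y : ℕ} (hY : 1 ≤ Y) :
    Integrable (fun ω => ‖FSV a (gX 1 X ω) ε - FV a (gX 1 X ω) ε Y‖ ^ 2) μ ∧
    ∫ ω, ‖FSV a (gX 1 X ω) ε - FV a (gX 1 X ω) ε Y‖ ^ 2 ∂μ ≤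
      r * dl ((Module.finrank ℚ K : ℝ) * M) Y := by
  have hprob := hX.prob
  apply vec_sq (meas_FSV hX ha hε) (meas_FV hX a ε Y)
  · intro k
    refine Integrable.of_bound (C := (M * ∑' v : HeightOneSpectrum (𝓞 K), wt ε (nm v) +
      M * ∑' v : HeightOneSpectrum (𝓞 K), wt ε (nm v)) ^ 2) ?_ (Eventually.of_forall fun ω => ?_)
    · exact (((meas_FS hX (ha k) hε).sub (meas_FY hX (a k) ε Y)).norm.pow_const 2).aestronglyMeasurable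
    · rw [norm_pow, norm_norm]
      apply pow_le_pow_left₀ (norm_nonneg _)
      exact (norm_sub_le _ _).trans (add_le_add (norm_FS hM (ha k) (pm_gX hX 1 ω) hε)
        (norm_FY' hM (ha k) (pm_gX hX 1 ω) hε Y))
  · intro k
    exact tail_x hX hε hM (ha k) hY

end

/-- **The joint limit law.** -/
theorem exists_law {a : Fin r → HeightOneSpectrum (𝓞 K) → ℂ} {M : ℝ} (hM : 0 ≤ M)
    (ha : ∀ k v, ‖a k v‖ ≤ M) :
    ∃ Z : (Nat.Primes → unitInterval) → Fin r → ℂ, Measurable Z ∧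
      Integrable (fun ω => ‖Z ω‖ ^ 2) pmu ∧
      (∀ Y : ℕ, 1 ≤ Y → ∀ k, ∫ ω, ‖Z ω k - FY (a k) (gX 1 (fun n ω => rmf ω n) ω) 0 Y‖ ^ 2 ∂pmu ≤
        dl ((Module.finrank ℚ K : ℝ) * M) Y) ∧
      ∀ (f : (Fin r → ℂ) → ℝ), Continuous f → ∀ D : ℝ, (∀ z, |f z| ≤ D * (1 + ‖z‖ ^ 2)) →
        ∀ η : ℝ, 0 < η →
        (∃ T₀ ε₀ : ℝ, 0 < ε₀ ∧ ∀ U H ε : ℝ, 0 < ε → ε ≤ ε₀ → T₀ ≤ H * ε →
          |∫ t, f (FSV a (ph (-t)) ε) ∂(tau U H) - ∫ ω, f (Z ω) ∂pmu| ≤ η) ∧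
        (∃ ε₀ : ℝ, 0 < ε₀ ∧ ∀ ε : ℝ, 0 < ε → ε ≤ ε₀ →
          |∫ ω, f (FSV a (gX 1 (fun n ω => rmf ω n) ω) ε) ∂pmu - ∫ ω, f (Z ω) ∂pmu| ≤ η) := by
  classical
  have hX : Steinhaus pmu (fun n (ω : Nat.Primes → unitInterval) => rmf ω n) := model
  set X : ℕ → (Nat.Primes → unitInterval) → ℂ := fun n ω => rmf ω n with hXdef
  set m : ℝ := (Module.finrank ℚ K : ℝ) * M with hm
  choose Z hZm hZ using fun k => exists_Z hX hM (ha k)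
  set ZV : (Nat.Primes → unitInterval) → Fin r → ℂ := fun ω k => Z k ω with hZV
  have hZVm : Measurable ZV := measurable_pi_iff.2 hZm
  have hZY : ∀ Y : ℕ, 1 ≤ Y → Integrable (fun ω => ‖ZV ω - FV a (gX 1 X ω) 0 Y‖ ^ 2) pmu ∧
      ∫ ω, ‖ZV ω - FV a (gX 1 X ω) 0 Y‖ ^ 2 ∂pmu ≤ r * dl m Y := fun Y hY =>
    vec_sq hZVm (meas_FV hX a 0 Y) (fun k => (hZ k Y hY).1) fun k => (hZ k Y hY).2
  have hZint : Integrable (fun ω => ‖ZV ω‖ ^ 2) pmu :=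
    sq_integrable_of_close hZVm (fun ω => norm_FV hM ha (pm_gX hX 1 ω) le_rfl 1)
      (hZY 1 le_rfl).1
  refine ⟨ZV, hZVm, hZint, fun Y hY k => (hZ k Y hY).2, ?_⟩
  intro f hf D hD η hη
  have hη4 : 0 < η / 4 := by positivity
  obtain ⟨δ₁, hδ₁, htr⟩ := transfer hf hD hη4
  have hdl : ∀ δ : ℝ, 0 < δ → ∀ᶠ Y : ℕ in atTop, (r : ℝ) * dl m Y ≤ δ := by
    intro δ hδ
    have h1 : Tendsto (fun Y : ℕ => (r : ℝ) * dl m Y) atTop (𝓝 (r * 0)) :=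
      (tendsto_dl m).const_mul _
    rw [mul_zero] at h1
    filter_upwards [h1.eventually (gt_mem_nhds hδ)] with Y hY
    exact hY.le
  obtain ⟨Y₁, hY₁a, hY₁b, hY₁c⟩ := ((hdl δ₁ hδ₁).and ((small_t hM ha hδ₁).and
    (eventually_ge_atTop 1))).exists
  obtain ⟨δ₂, hδ₂, htr⟩ := htr (bY K M Y₁)
  obtain ⟨Y₂, hY₂a, hY₂b, hY₂c⟩ := ((hdl δ₂ hδ₂).and ((small_t hM ha hδ₂).and
    (eventually_ge_atTop 1))).exists
  obtain ⟨T₁, hT₁⟩ := hY₁b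
  obtain ⟨T₂, hT₂⟩ := hY₂b
  obtain ⟨ε₀, hε₀, hεF⟩ := eps_F hM ha Y₂ hf hη4
  obtain ⟨H₁, hH₁⟩ := Filter.eventually_atTop.1 (torus_F a Y₂ hf hη4)
  -- the random series on the line
  have hline : |∫ ω, f (ZV ω) ∂pmu - ∫ ω, f (FV a (gX 1 X ω) 0 Y₂) ∂pmu| ≤ η / 4 :=
    htr _ pmu ZV (fun ω => FV a (gX 1 X ω) 0 Y₁) (fun ω => FV a (gX 1 X ω) 0 Y₂) hZVm
      (meas_FV hX a 0 Y₂) (fun ω => norm_FV hM ha (pm_gX hX 1 ω) le_rfl Y₁)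
      ⟨bY K M Y₂, fun ω => norm_FV hM ha (pm_gX hX 1 ω) le_rfl Y₂⟩ (hZY Y₁ hY₁c).1
      (hZY Y₂ hY₂c).1 ((hZY Y₁ hY₁c).2.trans hY₁a) ((hZY Y₂ hY₂c).2.trans hY₂a)
  have hsm : ∀ ε : ℝ, 0 ≤ ε → ε ≤ ε₀ → |∫ ω, f (FV a (gX 1 X ω) ε Y₂) ∂pmu -
      ∫ ω, f (FV a (gX 1 X ω) 0 Y₂) ∂pmu| ≤ η / 4 := by
    intro ε h0 h1
    have hint : ∀ ε' : ℝ, 0 ≤ ε' → Integrable (fun ω => f (FV a (gX 1 X ω) ε' Y₂)) pmu := by
      intro ε' h2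
      apply integrable_growth hf hD (meas_FV hX a ε' Y₂)
      refine Integrable.of_bound ((meas_FV hX a ε' Y₂).norm.pow_const 2).aestronglyMeasurable
        (bY K M Y₂ ^ 2) (Eventually.of_forall fun ω => ?_)
      rw [norm_pow, norm_norm]
      exact pow_le_pow_left₀ (norm_nonneg _) (norm_FV hM ha (pm_gX hX 1 ω) h2 Y₂) 2
    rw [← integral_sub (hint ε h0) (hint 0 le_rfl)]
    have h2 := norm_integral_le_of_norm_le_const (μ := pmu)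
      (f := fun ω => f (FV a (gX 1 X ω) ε Y₂) - f (FV a (gX 1 X ω) 0 Y₂)) (C := η / 4)
      (Eventually.of_forall fun ω => hεF ε h0 h1 _ (pm_gX hX 1 ω))
    simpa using h2
  refine ⟨⟨max (max T₁ T₂) H₁, min ε₀ (1 / 2), by positivity, ?_⟩, ⟨min ε₀ (1 / 2),
    by positivity, ?_⟩⟩
  · intro U H ε hε0 hε1 hT
    have hεa : ε ≤ ε₀ := hε1.trans (min_le_left _ _)
    have hεb : ε ≤ 1 / 2 := hε1.trans (min_le_right _ _)
    obtain ⟨hH, a1, a2⟩ := hT₁ U H ε hε0 hεb (((le_max_left _ _).trans (le_max_left _ _)).trans hT)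
    obtain ⟨-, b1, b2⟩ := hT₂ U H ε hε0 hεb (((le_max_right _ _).trans (le_max_left _ _)).trans hT)
    have hH0 : 0 < H := by linarith
    have hprob := prob_tau U hH0
    have hHε : H * ε ≤ H := by nlinarith
    have h1 := hH₁ H (((le_max_right _ _).trans hT).trans hHε) U ε hε0.le hεb _ pmu X hX
    have h2 : |∫ t, f (FSV a (ph (-t)) ε) ∂(tau U H) - ∫ t, f (FV a (ph (-t)) ε Y₂) ∂(tau U H)| ≤
        η / 4 :=
      htr _ (tau U H) (fun t => FSV a (ph (-t)) ε) (fun t => FV a (ph (-t)) ε Y₁)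
        (fun t => FV a (ph (-t)) ε Y₂) (meas_FSV_t ha hε0) (meas_FV_t a ε Y₂)
        (fun t => norm_FV hM ha (pm_ph t) hε0.le Y₁)
        ⟨bY K M Y₂, fun t => norm_FV hM ha (pm_ph t) hε0.le Y₂⟩ a1 b1 a2 b2
    have h3 := hsm ε hε0.le hεa
    rw [abs_sub_comm] at hline
    have e1 := abs_sub_le (∫ t, f (FSV a (ph (-t)) ε) ∂(tau U H))
      (∫ t, f (FV a (ph (-t)) ε Y₂) ∂(tau U H)) (∫ ω, f (ZV ω) ∂pmu)
    have e2 := abs_sub_le (∫ t, f (FV a (ph (-t)) ε Y₂) ∂(tau U H))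
      (∫ ω, f (FV a (gX 1 X ω) ε Y₂) ∂pmu) (∫ ω, f (ZV ω) ∂pmu)
    have e3 := abs_sub_le (∫ ω, f (FV a (gX 1 X ω) ε Y₂) ∂pmu)
      (∫ ω, f (FV a (gX 1 X ω) 0 Y₂) ∂pmu) (∫ ω, f (ZV ω) ∂pmu)
    linarith
  · intro ε hε0 hε1
    have hεa : ε ≤ ε₀ := hε1.trans (min_le_left _ _)
    obtain ⟨a1, a2⟩ := tail_x_vec hX hε0 hM ha hY₁c
    obtain ⟨b1, b2⟩ := tail_x_vec hX hε0 hM ha hY₂c
    have h2 : |∫ ω, f (FSV a (gX 1 X ω) ε) ∂pmu - ∫ ω, f (FV a (gX 1 X ω) ε Y₂) ∂pmu| ≤ η / 4 :=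
      htr _ pmu (fun ω => FSV a (gX 1 X ω) ε) (fun ω => FV a (gX 1 X ω) ε Y₁)
        (fun ω => FV a (gX 1 X ω) ε Y₂) (meas_FSV hX ha hε0) (meas_FV hX a ε Y₂)
        (fun ω => norm_FV hM ha (pm_gX hX 1 ω) hε0.le Y₁)
        ⟨bY K M Y₂, fun ω => norm_FV hM ha (pm_gX hX 1 ω) hε0.le Y₂⟩ a1 b1
        (a2.trans hY₁a) (b2.trans hY₂a)
    have h3 := hsm ε hε0.le hεa
    rw [abs_sub_comm] at hline
    have e1 := abs_sub_le (∫ ω, f (FSV a (gX 1 X ω) ε) ∂pmu)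
      (∫ ω, f (FV a (gX 1 X ω) ε Y₂) ∂pmu) (∫ ω, f (ZV ω) ∂pmu)
    have e3 := abs_sub_le (∫ ω, f (FV a (gX 1 X ω) ε Y₂) ∂pmu)
      (∫ ω, f (FV a (gX 1 X ω) 0 Y₂) ∂pmu) (∫ ω, f (ZV ω) ∂pmu)
    linarith

end

end Pool.Agent.H439.FA
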