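import Pool.Agent.H439.TA.Law
import Pool.Agent.H439.LS.TaubField

/-!
# Mean values of Dirichlet polynomials over an interval, with a kernel of quadratic decay
-/

set_option autoImplicit false

namespace Pool.Agent.H439.FA

open Finset Complex ComplexConjugate Filter Topology MeasureTheory Pool.Agent.H439.LS
  Pool.Agent.H439.SP Pool.Agent.H439.LL Pool.Agent.H439.TA

/-- the kernel -/
noncomputable def kk (x : ℝ) : ℝ := 6 / (1 + x ^ 2)

lemma kk_nonneg (x : ℝ) : 0 ≤ kk x := by unfold kk; positivity

lemma kk_neg (x : ℝ) : kk (-x) = kk x := by unfold kk; rw [neg_sq]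

lemma tri_int {H : ℝ} (hH : 0 < H) (l : ℝ) :
    ‖∫ u in (-H)..H, ((1 - |u| / H : ℝ) : ℂ) * Complex.exp ((l : ℂ) * I * u)‖ ≤ H * kk (H * l) := by
  have hcont : Continuous fun u : ℝ => ((1 - |u| / H : ℝ) : ℂ) * Complex.exp ((l : ℂ) * I * u) := by
    fun_prop
  have hexp : ∀ u : ℝ, ‖Complex.exp ((l : ℂ) * I * u)‖ = 1 := by
    intro u
    rw [show (l : ℂ) * I * (u : ℂ) = ((l * u : ℝ) : ℂ) * I by push_cast; ring,
      Complex.norm_exp_ofReal_mul_I]
  -- the trivial bound
  have h1 : ‖∫ u in (-H)..H, ((1 - |u| / H : ℝ) : ℂ) * Complex.exp ((l : ℂ) * I * u)‖ ≤ 2 * H := by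
    have h2 := intervalIntegral.norm_integral_le_of_norm_le_const (a := -H) (b := H) (C := 1)
      (f := fun u : ℝ => ((1 - |u| / H : ℝ) : ℂ) * Complex.exp ((l : ℂ) * I * u)) (by
        intro u hu
        rw [Set.uIoc_of_le (by linarith)] at hu
        rw [norm_mul, hexp, mul_one, Complex.norm_real, Real.norm_eq_abs, abs_le]
        have h3 : |u| ≤ H := abs_le.2 ⟨hu.1.le, hu.2⟩
        have h4 : |u| / H ≤ 1 := by rw [div_le_one hH]; exact h3
        have h5 : 0 ≤ |u| / H := by positivity
        constructor <;> linarith)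
    rw [one_mul] at h2
    refine h2.trans (le_of_eq ?_)
    rw [abs_of_nonneg (by linarith)]
    ring
  -- the other bound
  have h2 : l ≠ 0 → ‖∫ u in (-H)..H, ((1 - |u| / H : ℝ) : ℂ) * Complex.exp ((l : ℂ) * I * u)‖ ≤
      4 / (H * l ^ 2) := by
    intro hl
    set c : ℂ := (l : ℂ) * I with hc
    have hc0 : c ≠ 0 := mul_ne_zero (by exact_mod_cast hl) I_ne_zero
    clear_value c
    have hHc : (H : ℂ) ≠ 0 := by exact_mod_cast hH.ne'
    have e1 : ∫ u in (0 : ℝ)..H, ((1 - |u| / H : ℝ) : ℂ) * Complex.exp (c * u) =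
        Complex.exp (c * H) / (H * c ^ 2) - 1 / c - 1 / (H * c ^ 2) := by
      have e2 : ∫ u in (0 : ℝ)..H, ((1 - |u| / H : ℝ) : ℂ) * Complex.exp (c * u) =
          ∫ u in (0 : ℝ)..H, (1 - (u : ℂ) / H) * Complex.exp (c * u) := by
        apply intervalIntegral.integral_congr
        intro u hu
        rw [Set.uIcc_of_le hH.le] at hu
        simp only
        rw [abs_of_nonneg hu.1]
        push_cast
        rfl
      rw [e2]
      have h3 : ∀ u ∈ Set.uIcc (0 : ℝ) H, HasDerivAt (fun u : ℝ => (1 - (u : ℂ) / H) *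
          Complex.exp (c * u) / c + Complex.exp (c * u) / (H * c ^ 2))
          ((1 - (u : ℂ) / H) * Complex.exp (c * u)) u := by
        intro u _
        have d1 : HasDerivAt (fun u : ℝ => (u : ℂ)) 1 u := Complex.ofRealCLM.hasDerivAt
        have d2 : HasDerivAt (fun u : ℝ => Complex.exp (c * u)) (Complex.exp (c * u) * (c * 1)) u :=
          (d1.const_mul c).cexp
        have d3 : HasDerivAt (fun u : ℝ => (1 - (u : ℂ) / H)) (-(1 / H)) u := by
          have := (d1.div_const (H : ℂ)).const_sub 1
          exact this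
        have d4 := ((d3.mul d2).div_const c).add (d2.div_const (H * c ^ 2))
        refine d4.congr_deriv ?_
        rw [mul_one]
        have e7 : Complex.exp (c * u) * c / (H * c ^ 2) = Complex.exp (c * u) / (H * c) := by
          rw [sq, ← mul_assoc, mul_div_mul_right _ _ hc0]
        rw [e7]
        field_simp
        ring
      rw [intervalIntegral.integral_eq_sub_of_hasDerivAt h3 (by
        apply Continuous.intervalIntegrable
        fun_prop)]
      simp only [Complex.ofReal_zero, mul_zero, Complex.exp_zero, zero_div, sub_zero]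
      rw [div_self hHc]
      ring
    have e3 : ∫ u in (-H)..(0 : ℝ), ((1 - |u| / H : ℝ) : ℂ) * Complex.exp (c * u) =
        1 / c - 1 / (H * c ^ 2) + Complex.exp (-(c * H)) / (H * c ^ 2) := by
      have e2 : ∫ u in (-H)..(0 : ℝ), ((1 - |u| / H : ℝ) : ℂ) * Complex.exp (c * u) =
          ∫ u in (-H)..(0 : ℝ), (1 + (u : ℂ) / H) * Complex.exp (c * u) := by
        apply intervalIntegral.integral_congr
        intro u hu
        rw [Set.uIcc_of_le (by linarith)] at hu
        simp only
        rw [abs_of_nonpos hu.2]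
        push_cast
        ring
      rw [e2]
      have h3 : ∀ u ∈ Set.uIcc (-H) (0 : ℝ), HasDerivAt (fun u : ℝ => (1 + (u : ℂ) / H) *
          Complex.exp (c * u) / c - Complex.exp (c * u) / (H * c ^ 2))
          ((1 + (u : ℂ) / H) * Complex.exp (c * u)) u := by
        intro u _
        have d1 : HasDerivAt (fun u : ℝ => (u : ℂ)) 1 u := Complex.ofRealCLM.hasDerivAt
        have d2 : HasDerivAt (fun u : ℝ => Complex.exp (c * u)) (Complex.exp (c * u) * (c * 1)) u :=
          (d1.const_mul c).cexp
        have d3 : HasDerivAt (fun u : ℝ => (1 + (u : ℂ) / H)) (1 / H) u := by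
          have := (d1.div_const (H : ℂ)).const_add 1
          exact this
        have d4 := ((d3.mul d2).div_const c).sub (d2.div_const (H * c ^ 2))
        refine d4.congr_deriv ?_
        rw [mul_one]
        have e7 : Complex.exp (c * u) * c / (H * c ^ 2) = Complex.exp (c * u) / (H * c) := by
          rw [sq, ← mul_assoc, mul_div_mul_right _ _ hc0]
        rw [e7]
        field_simp
        ring
      rw [intervalIntegral.integral_eq_sub_of_hasDerivAt h3 (by
        apply Continuous.intervalIntegrable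
        fun_prop)]
      have e5 : (1 : ℂ) + ((-H : ℝ) : ℂ) / H = 0 := by
        push_cast
        field_simp
        ring
      rw [e5]
      simp only [Complex.ofReal_zero, mul_zero, Complex.exp_zero, zero_div, add_zero, zero_mul,
        Complex.ofReal_neg, mul_neg]
      ring
    have e4 : ∫ u in (-H)..H, ((1 - |u| / H : ℝ) : ℂ) * Complex.exp (c * u) =
        (Complex.exp (c * H) + Complex.exp (-(c * H)) - 2) / (H * c ^ 2) := by
      rw [← intervalIntegral.integral_add_adjacent_intervals (b := 0)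
        (hcont.intervalIntegrable _ _) (hcont.intervalIntegrable _ _), e1, e3]
      ring
    rw [e4, norm_div]
    have h5 : ‖(H : ℂ) * c ^ 2‖ = H * l ^ 2 := by
      rw [norm_mul, norm_pow, hc, norm_mul, Complex.norm_I, mul_one, Complex.norm_real,
        Complex.norm_real, Real.norm_of_nonneg hH.le, Real.norm_eq_abs, sq_abs]
    rw [h5]
    apply div_le_div_of_nonneg_right _ (by positivity)
    have h6 : ‖Complex.exp (c * H)‖ = 1 := hexp H
    have h7 : ‖Complex.exp (-(c * H))‖ = 1 := by
      have := hexp (-H)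
      rw [← this, hc]
      congr 2
      push_cast
      ring
    calc ‖Complex.exp (c * H) + Complex.exp (-(c * H)) - 2‖ ≤
          ‖Complex.exp (c * H)‖ + ‖Complex.exp (-(c * H))‖ + ‖(2 : ℂ)‖ :=
          (norm_sub_le _ _).trans (add_le_add (norm_add_le _ _) le_rfl)
      _ = 4 := by rw [h6, h7]; norm_num
  -- combine
  unfold kk
  by_cases hx : (H * l) ^ 2 ≤ 2
  · refine h1.trans ?_
    have : 2 ≤ 6 / (1 + (H * l) ^ 2) := by
      rw [le_div_iff₀ (by positivity)]
      linarith
    nlinarith
  · rw [not_le] at hx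
    have hl : l ≠ 0 := by
      intro h0
      rw [h0, mul_zero] at hx
      norm_num at hx
    refine (h2 hl).trans ?_
    rw [mul_div_assoc', div_le_div_iff₀ (by positivity) (by positivity)]
    have e : H * 6 * (H * l ^ 2) = 6 * (H * l) ^ 2 := by ring
    rw [e]
    linarith

/-- **The mean square, with the kernel.** -/
theorem kern (S : Finset ℕ) (hS : ∀ n ∈ S, 0 < n) (c : ℕ → ℂ) (U : ℝ) {H : ℝ} (hH : 0 < H) :
    ∫ t in U..(U + H), ‖∑ n ∈ S, c n * ph (-t) n‖ ^ 2 ≤
      2 * H * ∑ m ∈ S, ∑ n ∈ S, ‖c m‖ * ‖c n‖ * kk (H * (Real.log m - Real.log n)) := by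
  set t₀ : ℝ := U + H / 2 with ht₀
  set f : ℝ → ℝ := fun t => ‖∑ n ∈ S, c n * ph (-t) n‖ ^ 2 with hf
  have hfc : Continuous f := by
    apply Continuous.pow
    apply Continuous.norm
    apply continuous_finsetSum
    intro n hn
    exact (continuous_ph (hS n hn)).const_mul _
  have hf0 : ∀ t, 0 ≤ f t := fun t => by positivity
  set g : ℝ → ℝ := fun t => 2 * ((1 - |t - t₀| / H) * f t) with hg
  have hgc : Continuous g := by fun_prop
  -- step 1
  have h1 : ∫ t in U..(U + H), f t ≤ ∫ t in U..(U + H), g t := by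
    apply intervalIntegral.integral_mono_on (by linarith) (hfc.intervalIntegrable _ _)
      (hgc.intervalIntegrable _ _)
    intro t ht
    have h2 : |t - t₀| ≤ H / 2 := by
      rw [abs_le, ht₀]
      constructor <;> linarith [ht.1, ht.2]
    have h3 : |t - t₀| / H ≤ 1 / 2 := by
      rw [div_le_iff₀ hH]
      linarith
    simp only [hg]
    nlinarith [hf0 t]
  have h2 : ∫ t in U..(U + H), g t ≤ ∫ t in (-H + t₀)..(H + t₀), g t := by
    have hge : ∀ t, t ∈ Set.Icc (-H + t₀) (H + t₀) → 0 ≤ g t := by
      intro t ht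
      have h3 : |t - t₀| ≤ H := by
        rw [abs_le]
        constructor <;> linarith [ht.1, ht.2]
      have h4 : |t - t₀| / H ≤ 1 := by
        rw [div_le_one hH]
        exact h3
      simp only [hg]
      have := hf0 t
      have h5 : 0 ≤ 1 - |t - t₀| / H := by linarith
      positivity
    apply intervalIntegral.integral_mono_interval (by linarith) (by linarith) (by linarith)
    · filter_upwards [ae_restrict_mem measurableSet_Ioc] with t ht
      exact hge t ⟨ht.1.le, ht.2⟩
    · exact hgc.intervalIntegrable _ _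
  have h3 : ∫ t in (-H + t₀)..(H + t₀), g t = ∫ u in (-H)..H, g (u + t₀) := by
    rw [intervalIntegral.integral_comp_add_right]
  -- the expansion
  have hexp : ∀ u : ℝ, ((g (u + t₀) : ℝ) : ℂ) = ∑ m ∈ S, ∑ n ∈ S,
      2 * (conj (c m * ph (-t₀) m) * (c n * ph (-t₀) n)) *
      (((1 - |u| / H : ℝ) : ℂ) * Complex.exp (((Real.log m - Real.log n : ℝ) : ℂ) * I * u)) := by
    intro u
    simp only [hg, hf]
    rw [add_sub_cancel_right]
    push_cast
    rw [← conj_mul', map_sum, sum_mul_sum, mul_sum, mul_sum]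
    apply sum_congr rfl
    intro m hm
    rw [mul_sum, mul_sum]
    apply sum_congr rfl
    intro n hn
    have e1 : ∀ k : ℕ, 0 < k → ph (-(u + t₀)) k = ph (-u) k * ph (-t₀) k := by
      intro k hk
      rw [ph_exp _ hk, ph_exp _ hk, ph_exp _ hk, ← Complex.exp_add]
      congr 1
      push_cast
      ring
    have e2 : conj (ph (-u) m) * ph (-u) n =
        Complex.exp (((Real.log m - Real.log n : ℝ) : ℂ) * I * u) := by
      rw [ph_exp u (hS m hm), ph_exp u (hS n hn), ← Complex.exp_conj, ← Complex.exp_add]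
      congr 1
      simp only [map_mul, Complex.conj_I, Complex.conj_ofReal]
      push_cast
      ring
    rw [e1 m (hS m hm), e1 n (hS n hn)]
    simp only [map_mul]
    push_cast at e2
    rw [← e2]
    ring
  have h4 : ((∫ u in (-H)..H, g (u + t₀) : ℝ) : ℂ) = ∑ m ∈ S, ∑ n ∈ S,
      2 * (conj (c m * ph (-t₀) m) * (c n * ph (-t₀) n)) *
      ∫ u in (-H)..H, ((1 - |u| / H : ℝ) : ℂ) *
        Complex.exp (((Real.log m - Real.log n : ℝ) : ℂ) * I * u) := by
    rw [← intervalIntegral.integral_ofReal]
    simp_rw [hexp]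
    rw [intervalIntegral.integral_finsetSum]
    · apply sum_congr rfl
      intro m hm
      rw [intervalIntegral.integral_finsetSum]
      · apply sum_congr rfl
        intro n hn
        rw [intervalIntegral.integral_const_mul]
      · intro n hn
        apply Continuous.intervalIntegrable
        fun_prop
    · intro m hm
      apply Continuous.intervalIntegrable
      fun_prop
  have h5 : 0 ≤ ∫ u in (-H)..H, g (u + t₀) := by
    rw [← h3]
    refine le_trans ?_ (h1.trans h2)
    exact intervalIntegral.integral_nonneg (by linarith) fun _ _ => hf0 _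
  have h6 : ∫ u in (-H)..H, g (u + t₀) ≤
      2 * H * ∑ m ∈ S, ∑ n ∈ S, ‖c m‖ * ‖c n‖ * kk (H * (Real.log m - Real.log n)) := by
    have e : ∫ u in (-H)..H, g (u + t₀) = ‖((∫ u in (-H)..H, g (u + t₀) : ℝ) : ℂ)‖ := by
      rw [Complex.norm_real, Real.norm_of_nonneg h5]
    rw [e, h4, mul_sum]
    refine (norm_sum_le _ _).trans (sum_le_sum fun m hm => ?_)
    rw [mul_sum]
    refine (norm_sum_le _ _).trans (sum_le_sum fun n hn => ?_)
    have h7 := tri_int hH (Real.log m - Real.log n)
    rw [norm_mul, norm_mul, norm_mul, Complex.norm_conj, norm_mul, norm_mul (c n),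
      norm_ph _ (hS m hm), norm_ph _ (hS n hn), mul_one, mul_one]
    have h8 : ‖(2 : ℂ)‖ = 2 := by norm_num
    rw [h8]
    calc 2 * (‖c m‖ * ‖c n‖) * _ ≤ 2 * (‖c m‖ * ‖c n‖) * (H * kk (H * (Real.log m - Real.log n))) :=
          mul_le_mul_of_nonneg_left h7 (by positivity)
      _ = _ := by ring
  calc ∫ t in U..(U + H), f t ≤ ∫ t in U..(U + H), g t := h1
    _ ≤ ∫ t in (-H + t₀)..(H + t₀), g t := h2
    _ = ∫ u in (-H)..H, g (u + t₀) := h3
    _ ≤ _ := h6

end Pool.Agent.H439.FA
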