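import Pool.Agent.H439.FA.FieldF
import Pool.Agent.H439.LL.Model

/-!
# The series and its partial sums
-/

set_option autoImplicit false

namespace Pool.Agent.H439.FA

open Finset Complex ComplexConjugate Filter Topology MeasureTheory NumberField IsDedekindDomain
  Pool.Agent.TH339.MP Pool.Agent.H439.LS Pool.Agent.H439.LL Pool.Agent.H439.TA

section
variable {K : Type} [Field K] [NumberField K]

/-- the series -/
noncomputable def FS (a : HeightOneSpectrum (𝓞 K) → ℂ) (g : ℕ → ℂ) (ε : ℝ) : ℂ :=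
  ∑' v, ft a g ε v

/-- the partial sums -/
noncomputable def FY (a : HeightOneSpectrum (𝓞 K) → ℂ) (g : ℕ → ℂ) (ε : ℝ) (Y : ℕ) : ℂ :=
  ∑ v ∈ Vy K (Y : ℝ), ft a g ε v

lemma wt_nm_le {ε : ℝ} (hε : 0 < ε) (v : HeightOneSpectrum (𝓞 K)) :
    wt ε (nm v) ≤ (2 / ε) * ((pr v : ℕ) : ℝ) ^ (-(1 + ε / 2)) := by
  have hn := nm_pos v
  have hn0 : (0 : ℝ) < nm v := by exact_mod_cast hn
  have hp0 : (0 : ℝ) < ((pr v : ℕ) : ℝ) := by exact_mod_cast (pr v).2.pos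
  have h2 := Real.log_le_rpow_div hn0.le (half_pos hε)
  unfold wt
  calc Real.log (nm v) * (nm v : ℝ) ^ (-(1 + ε)) ≤
        ((nm v : ℝ) ^ (ε / 2) / (ε / 2)) * (nm v : ℝ) ^ (-(1 + ε)) :=
        mul_le_mul_of_nonneg_right h2 (by positivity)
    _ = (2 / ε) * ((nm v : ℝ) ^ (ε / 2) * (nm v : ℝ) ^ (-(1 + ε))) := by field_simp
    _ = (2 / ε) * (nm v : ℝ) ^ (-(1 + ε / 2)) := by
        rw [← Real.rpow_add hn0]
        congr 2
        ring
    _ ≤ _ := by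
        apply mul_le_mul_of_nonneg_left _ (by positivity)
        apply Real.rpow_le_rpow_of_nonpos hp0 _ (by linarith)
        have h3 : (pr v : ℕ) ≤ nm v := by
          rw [nm_eq]
          exact Nat.le_self_pow (dg_pos v).ne' _
        exact_mod_cast h3

lemma summable_wt_nm {ε : ℝ} (hε : 0 < ε) :
    Summable fun v : HeightOneSpectrum (𝓞 K) => wt ε (nm v) :=
  Summable.of_nonneg_of_le (fun v => wt_nonneg _ _) (fun v => wt_nm_le hε v)
    ((summable_pr (by linarith)).mul_left _)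

lemma summable_ft {a : HeightOneSpectrum (𝓞 K) → ℂ} {M : ℝ} (ha : ∀ v, ‖a v‖ ≤ M) {g : ℕ → ℂ}
    (hg : PM g) {ε : ℝ} (hε : 0 < ε) : Summable (ft a g ε) :=
  Summable.of_norm_bounded ((summable_wt_nm hε).mul_left M) fun v => norm_ft ha hg ε v

lemma tendsto_Vy : Tendsto (fun N : ℕ => Vy K (N : ℝ)) atTop atTop := by
  apply tendsto_atTop_finset_of_monotone
  · intro m n hmn v hv
    rw [mem_Vy] at hv ⊢
    exact hv.trans (by exact_mod_cast hmn)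
  · intro v
    exact ⟨nm v, by rw [mem_Vy]⟩

lemma tendsto_FY {a : HeightOneSpectrum (𝓞 K) → ℂ} {M : ℝ} (ha : ∀ v, ‖a v‖ ≤ M) {g : ℕ → ℂ}
    (hg : PM g) {ε : ℝ} (hε : 0 < ε) : Tendsto (fun N : ℕ => FY a g ε N) atTop (𝓝 (FS a g ε)) :=
  (summable_ft ha hg hε).hasSum.comp tendsto_Vy

/-- the bound of the partial sums -/
noncomputable def bY (K : Type) [Field K] [NumberField K] (M : ℝ) (Y : ℕ) : ℝ :=
  ∑ v ∈ Vy K (Y : ℝ), M * (Real.log (nm v) / nm v)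

lemma norm_FY {a : HeightOneSpectrum (𝓞 K) → ℂ} {M : ℝ} (hM : 0 ≤ M) (ha : ∀ v, ‖a v‖ ≤ M)
    {g : ℕ → ℂ} (hg : PM g) {ε : ℝ} (hε : 0 ≤ ε) (Y : ℕ) : ‖FY a g ε Y‖ ≤ bY K M Y := by
  unfold FY bY
  apply norm_sum_le_of_le
  intro v _
  exact (norm_ft ha hg ε v).trans (mul_le_mul_of_nonneg_left (wt_le hε (nm_pos v)) hM)

lemma norm_FY' {a : HeightOneSpectrum (𝓞 K) → ℂ} {M : ℝ} (hM : 0 ≤ M) (ha : ∀ v, ‖a v‖ ≤ M)
    {g : ℕ → ℂ} (hg : PM g) {ε : ℝ} (hε : 0 < ε) (Y : ℕ) :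
    ‖FY a g ε Y‖ ≤ M * ∑' v : HeightOneSpectrum (𝓞 K), wt ε (nm v) := by
  unfold FY
  refine (norm_sum_le_of_le _ fun v _ => norm_ft ha hg ε v).trans ?_
  rw [← mul_sum]
  apply mul_le_mul_of_nonneg_left _ hM
  exact (summable_wt_nm hε).sum_le_tsum _ fun v _ => wt_nonneg _ _

open Classical in
/-- the places of norm in an interval -/
noncomputable def Vb (K : Type) [Field K] [NumberField K] (Y N : ℕ) :
    Finset (HeightOneSpectrum (𝓞 K)) := Vy K (N : ℝ) \ Vy K (Y : ℝ)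

lemma lt_of_mem_Vb {Y N : ℕ} {v : HeightOneSpectrum (𝓞 K)} (hv : v ∈ Vb K Y N) : Y < nm v := by
  classical
  unfold Vb at hv
  have h1 := (Finset.mem_sdiff.1 hv).2
  rw [mem_Vy, not_le] at h1
  exact_mod_cast h1

lemma FY_sub (a : HeightOneSpectrum (𝓞 K) → ℂ) (g : ℕ → ℂ) (ε : ℝ) {Y N : ℕ} (h : Y ≤ N) :
    FY a g ε N - FY a g ε Y = ∑ v ∈ Vb K Y N, ft a g ε v := by
  classical
  have hsub : Vy K (Y : ℝ) ⊆ Vy K (N : ℝ) := by
    intro v hv
    rw [mem_Vy] at hv ⊢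
    exact hv.trans (by exact_mod_cast h)
  unfold FY Vb
  rw [← sum_sdiff hsub]
  ring

lemma cont_FY (a : HeightOneSpectrum (𝓞 K) → ℂ) (ε : ℝ) (Y : ℕ) :
    Continuous fun t : ℝ => FY a (ph (-t)) ε Y := by
  unfold FY
  apply continuous_finsetSum
  intro v _
  exact continuous_ft_ph a ε v

lemma meas_FS_t {a : HeightOneSpectrum (𝓞 K) → ℂ} {M : ℝ} (ha : ∀ v, ‖a v‖ ≤ M) {ε : ℝ}
    (hε : 0 < ε) : Measurable fun t : ℝ => FS a (ph (-t)) ε := by
  apply measurable_of_tendsto_metrizable (fun N : ℕ => (cont_FY a ε N).measurable)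
  rw [tendsto_pi_nhds]
  intro t
  exact tendsto_FY ha (pm_ph t) hε

/-- **The mean square of the tail, in the `t`-aspect.** -/
theorem tail_t {H : ℝ} (hH : (120000 : ℝ) ≤ H) {ε : ℝ} (hε : 0 < ε) (hε1 : ε ≤ 1 / 2) (U : ℝ)
    {a : HeightOneSpectrum (𝓞 K) → ℂ} {M : ℝ} (hM : 0 ≤ M) (ha : ∀ v, ‖a v‖ ≤ M) {Y : ℕ}
    (hY : 1 ≤ Y) :
    ∫ t, ‖FS a (ph (-t)) ε - FY a (ph (-t)) ε Y‖ ^ 2 ∂(tau U H) ≤
      dl ((Module.finrank ℚ K : ℝ) * M) Y +
        2 * ((Module.finrank ℚ K : ℝ) * M) ^ 2 * (CA * (Real.log H ^ 4 / H) + CA / (H * ε)) := by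
  have hH0 : 0 < H := by linarith
  have hprob := prob_tau U hH0
  set B : ℝ := M * ∑' v : HeightOneSpectrum (𝓞 K), wt ε (nm v) with hB
  have h1 : Tendsto (fun N : ℕ => ∫ t, ‖FY a (ph (-t)) ε N - FY a (ph (-t)) ε Y‖ ^ 2 ∂(tau U H))
      atTop (𝓝 (∫ t, ‖FS a (ph (-t)) ε - FY a (ph (-t)) ε Y‖ ^ 2 ∂(tau U H))) := by
    apply tendsto_integral_of_dominated_convergence (fun _ => (B + B) ^ 2)
    · intro N
      exact (((cont_FY a ε N).sub (cont_FY a ε Y)).norm.pow 2).aestronglyMeasurable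
    · exact integrable_const _
    · intro N
      refine Eventually.of_forall fun t => ?_
      rw [norm_pow, norm_norm]
      apply pow_le_pow_left₀ (norm_nonneg _)
      exact (norm_sub_le _ _).trans (add_le_add (norm_FY' hM ha (pm_ph t) hε N)
        (norm_FY' hM ha (pm_ph t) hε Y))
    · exact Eventually.of_forall fun t => (((tendsto_FY ha (pm_ph t) hε).sub_const _).norm).pow 2
  refine le_of_tendsto h1 ?_
  filter_upwards [eventually_ge_atTop Y] with N hN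
  simp_rw [FY_sub a _ ε hN]
  exact fin_t hH hε hε1 U hM ha hY _ fun v hv => lt_of_mem_Vb hv

section
variable {Ω : Type} [MeasurableSpace Ω] {μ : Measure Ω} {X : ℕ → Ω → ℂ}

lemma meas_FY (hX : Steinhaus μ X) (a : HeightOneSpectrum (𝓞 K) → ℂ) (ε : ℝ) (Y : ℕ) :
    Measurable fun ω => FY a (gX 1 X ω) ε Y := by
  unfold FY
  apply Finset.measurable_sum
  intro v _
  unfold ft
  have e : ∀ ω, gX 1 X ω (nm v) = gX 1 X ω (pr v : Nat.Primes) ^ dg v := by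
    intro ω
    rw [nm_eq, (pm_gX hX 1 ω).pow _ (pr v).2]
  simp_rw [e]
  exact (((measurable_gX hX 1 (pr v).2).pow_const _).mul_const _).const_mul _

lemma meas_FS (hX : Steinhaus μ X) {a : HeightOneSpectrum (𝓞 K) → ℂ} {M : ℝ}
    (ha : ∀ v, ‖a v‖ ≤ M) {ε : ℝ} (hε : 0 < ε) : Measurable fun ω => FS a (gX 1 X ω) ε := by
  apply measurable_of_tendsto_metrizable (fun N : ℕ => meas_FY hX a ε N)
  rw [tendsto_pi_nhds]
  intro ω
  exact tendsto_FY ha (pm_gX hX 1 ω) hε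

/-- **The mean square of the tail, for the random function.** -/
theorem tail_x (hX : Steinhaus μ X) {ε : ℝ} (hε : 0 < ε)
    {a : HeightOneSpectrum (𝓞 K) → ℂ} {M : ℝ} (hM : 0 ≤ M) (ha : ∀ v, ‖a v‖ ≤ M) {Y : ℕ}
    (hY : 1 ≤ Y) :
    ∫ ω, ‖FS a (gX 1 X ω) ε - FY a (gX 1 X ω) ε Y‖ ^ 2 ∂μ ≤
      dl ((Module.finrank ℚ K : ℝ) * M) Y := by
  have hprob := hX.prob
  set B : ℝ := M * ∑' v : HeightOneSpectrum (𝓞 K), wt ε (nm v) with hB
  have h1 : Tendsto (fun N : ℕ => ∫ ω, ‖FY a (gX 1 X ω) ε N - FY a (gX 1 X ω) ε Y‖ ^ 2 ∂μ)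
      atTop (𝓝 (∫ ω, ‖FS a (gX 1 X ω) ε - FY a (gX 1 X ω) ε Y‖ ^ 2 ∂μ)) := by
    apply tendsto_integral_of_dominated_convergence (fun _ => (B + B) ^ 2)
    · intro N
      exact (((meas_FY hX a ε N).sub (meas_FY hX a ε Y)).norm.pow_const 2).aestronglyMeasurable
    · exact integrable_const _
    · intro N
      refine Eventually.of_forall fun ω => ?_
      rw [norm_pow, norm_norm]
      apply pow_le_pow_left₀ (norm_nonneg _)
      exact (norm_sub_le _ _).trans (add_le_add (norm_FY' hM ha (pm_gX hX 1 ω) hε N)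
        (norm_FY' hM ha (pm_gX hX 1 ω) hε Y))
    · exact Eventually.of_forall fun ω =>
        (((tendsto_FY ha (pm_gX hX 1 ω) hε).sub_const _).norm).pow 2
  refine le_of_tendsto h1 ?_
  filter_upwards [eventually_ge_atTop Y] with N hN
  simp_rw [FY_sub a _ ε hN]
  exact fin_x hX hε.le hM ha hY _ fun v hv => lt_of_mem_Vb hv

/-- **The random series on the line.** -/
theorem exists_Z (hX : Steinhaus μ X) {a : HeightOneSpectrum (𝓞 K) → ℂ} {M : ℝ} (hM : 0 ≤ M)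
    (ha : ∀ v, ‖a v‖ ≤ M) : ∃ Z : Ω → ℂ, Measurable Z ∧ ∀ Y : ℕ, 1 ≤ Y →
      Integrable (fun ω => ‖Z ω - FY a (gX 1 X ω) 0 Y‖ ^ 2) μ ∧
      ∫ ω, ‖Z ω - FY a (gX 1 X ω) 0 Y‖ ^ 2 ∂μ ≤ dl ((Module.finrank ℚ K : ℝ) * M) Y := by
  have hprob := hX.prob
  set m : ℝ := (Module.finrank ℚ K : ℝ) * M with hm
  set f : ℕ → Ω → ℂ := fun N ω => FY a (gX 1 X ω) 0 N with hf
  have hmem : ∀ N, MemLp (f N) 2 μ := by
    intro N
    refine MemLp.of_bound (meas_FY hX a 0 N).aestronglyMeasurable (bY K M N)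
      (Eventually.of_forall fun ω => norm_FY hM ha (pm_gX hX 1 ω) le_rfl N)
  have hsq : ∀ h : Ω → ℂ, MemLp h 2 μ → (eLpNorm h 2 μ).toReal ^ 2 = ∫ ω, ‖h ω‖ ^ 2 ∂μ := by
    intro h hh
    rw [hh.eLpNorm_eq_integral_rpow_norm (by norm_num) (by norm_num)]
    have h0 : 0 ≤ ∫ ω, ‖h ω‖ ^ (2 : ℝ) ∂μ := integral_nonneg fun ω => by positivity
    rw [ENNReal.toReal_ofNat, ENNReal.toReal_ofReal (by positivity), ← Real.rpow_natCast,
      ← Real.rpow_mul h0]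
    norm_num
  set F : ℕ → Lp ℂ 2 μ := fun N => (hmem N).toLp (f N) with hF
  have hdist : ∀ Y N : ℕ, 1 ≤ Y → Y ≤ N → ‖F N - F Y‖ ^ 2 ≤ dl m Y := by
    intro Y N hY hYN
    have h1 : F N - F Y = ((hmem N).sub (hmem Y)).toLp (f N - f Y) := (MemLp.toLp_sub _ _).symm
    rw [h1, Lp.norm_toLp, hsq _ ((hmem N).sub (hmem Y))]
    have h2 : ∀ ω, (f N - f Y) ω = ∑ v ∈ Vb K Y N, ft a (gX 1 X ω) 0 v := by
      intro ω
      rw [← FY_sub a _ 0 hYN]
      rfl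
    simp_rw [h2]
    exact fin_x hX le_rfl hM ha hY _ fun v hv => lt_of_mem_Vb hv
  have hcau : CauchySeq F := by
    rw [Metric.cauchySeq_iff']
    intro δ hδ
    have h1 := (tendsto_dl m).eventually (gt_mem_nhds (by positivity : 0 < δ ^ 2))
    obtain ⟨Y, hY1, hY2⟩ := (h1.and (eventually_ge_atTop 1)).exists
    refine ⟨Y, fun N hN => ?_⟩
    rw [dist_eq_norm]
    have h2 := hdist Y N hY2 hN
    exact lt_of_pow_lt_pow_left₀ 2 hδ.le (lt_of_le_of_lt h2 hY1)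
  obtain ⟨L, hL⟩ := cauchySeq_tendsto_of_complete hcau
  refine ⟨L, (Lp.stronglyMeasurable L).measurable, fun Y hY => ?_⟩
  have hmemL : MemLp (fun ω => L ω - f Y ω) 2 μ := (Lp.memLp L).sub (hmem Y)
  refine ⟨?_, ?_⟩
  · have := hmemL.integrable_norm_pow (by norm_num : (2 : ℕ) ≠ 0)
    exact this
  · have h1 : ‖L - F Y‖ ^ 2 ≤ dl m Y := by
      have h2 : Tendsto (fun N => ‖F N - F Y‖ ^ 2) atTop (𝓝 (‖L - F Y‖ ^ 2)) :=
        ((hL.sub_const _).norm).pow 2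
      refine le_of_tendsto h2 ?_
      filter_upwards [eventually_ge_atTop Y] with N hN
      exact hdist Y N hY hN
    have h3 : ‖L - F Y‖ = (eLpNorm (fun ω => L ω - f Y ω) 2 μ).toReal := by
      rw [Lp.norm_def]
      congr 1
      apply eLpNorm_congr_ae
      filter_upwards [Lp.coeFn_sub L (F Y), (hmem Y).coeFn_toLp] with ω h4 h5
      rw [h4, Pi.sub_apply, h5]
    rw [h3, hsq _ hmemL] at h1
    exact h1

end

end

end Pool.Agent.H439.FA
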