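import Pool.Agent.H439.FA.BT

/-!
# The double sums
-/

set_option autoImplicit false

namespace Pool.Agent.H439.FA

open Finset Complex ComplexConjugate Filter Topology MeasureTheory Pool.Agent.H439.LS
  Pool.Agent.H439.SP Pool.Agent.H439.LL Pool.Agent.H439.TA

/-- a sum over the primes -/
lemma cheb {ε : ℝ} (hε : 0 < ε) (hε1 : ε ≤ 1 / 2) (S : Finset ℕ) (hS : ∀ p ∈ S, p.Prime) :
    ∑ p ∈ S, Real.log p * (p : ℝ) ^ (-(1 + 2 * ε)) ≤ 6 / ε := by
  classical
  have hl2 : 0 < Real.log 2 := Real.log_pos (by norm_num)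
  have hl2a := Real.log_two_gt_d9
  have hl2b := Real.log_two_lt_d9
  set J : ℕ := S.sup (Nat.log 2) + 1 with hJ
  have hmaps : ∀ r ∈ S, Nat.log 2 r ∈ range J := fun r hr =>
    mem_range.2 (Nat.lt_succ_of_le (le_sup (f := Nat.log 2) hr))
  rw [← sum_fiberwise_of_maps_to hmaps]
  set x : ℝ := 2 * ε * Real.log 2 with hx
  have hx0 : 0 < x := by positivity
  have hx1 : x ≤ 1 := by nlinarith
  set r : ℝ := Real.exp (-x) with hr
  have hr0 : 0 < r := Real.exp_pos _
  have hr1 : 1 - r ≥ ε / 2 := by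
    have h2 : r ≤ 1 - x + x ^ 2 / 2 := by
      have h3 := Real.quadratic_le_exp_of_nonneg hx0.le
      have h4 : r * Real.exp x = 1 := by rw [hr, ← Real.exp_add]; simp
      have h5 : r * (1 + x + x ^ 2 / 2) ≤ 1 := by
        calc r * (1 + x + x ^ 2 / 2) ≤ r * Real.exp x := mul_le_mul_of_nonneg_left h3 hr0.le
          _ = 1 := h4
      have h6 : 1 ≤ (1 - x + x ^ 2 / 2) * (1 + x + x ^ 2 / 2) := by
        have e : (1 - x + x ^ 2 / 2) * (1 + x + x ^ 2 / 2) = 1 + x ^ 4 / 4 := by ring
        rw [e]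
        have : 0 ≤ x ^ 4 / 4 := by positivity
        linarith
      have h7 : 0 < 1 + x + x ^ 2 / 2 := by positivity
      exact le_of_mul_le_mul_right (h5.trans h6) h7
    nlinarith
  have hb : ∀ k ∈ range J, ∑ p ∈ S with Nat.log 2 p = k, Real.log p * (p : ℝ) ^ (-(1 + 2 * ε)) ≤
      3 * r ^ k := by
    intro k _
    have hfib : ∀ p ∈ S.filter (fun p => Nat.log 2 p = k), p.Prime ∧ 2 ^ k ≤ p ∧ p ≤ 2 ^ (k + 1) := by
      intro p hp
      rw [mem_filter] at hp
      have h1 := hS p hp.1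
      refine ⟨h1, ?_, ?_⟩
      · rw [← hp.2]
        exact Nat.pow_log_le_self 2 h1.pos.ne'
      · rw [← hp.2]
        exact (Nat.lt_pow_succ_log_self (by norm_num) p).le
    have hpk : (0 : ℝ) < 2 ^ k := by positivity
    have h1 : ∀ p ∈ S.filter (fun p => Nat.log 2 p = k), Real.log p * (p : ℝ) ^ (-(1 + 2 * ε)) ≤
        Real.log p * ((2 : ℝ) ^ k) ^ (-(1 + 2 * ε)) := by
      intro p hp
      obtain ⟨a1, a2, _⟩ := hfib p hp
      have hp2 : (2 : ℝ) ^ k ≤ p := by exact_mod_cast a2
      apply mul_le_mul_of_nonneg_left _ (Real.log_nonneg (by exact_mod_cast a1.one_le))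
      exact Real.rpow_le_rpow_of_nonpos hpk hp2 (by linarith)
    refine (sum_le_sum h1).trans ?_
    rw [← sum_mul]
    have h2 : ∑ p ∈ S.filter (fun p => Nat.log 2 p = k), Real.log p ≤ Real.log 4 * 2 ^ (k + 1) := by
      have h3 := Chebyshev.theta_le_log4_mul_x (x := (2 : ℝ) ^ (k + 1)) (by positivity)
      refine le_trans ?_ h3
      unfold Chebyshev.theta
      have e : ⌊(2 : ℝ) ^ (k + 1)⌋₊ = 2 ^ (k + 1) := by
        have : ((2 : ℝ) ^ (k + 1)) = ((2 ^ (k + 1) : ℕ) : ℝ) := by push_cast; rfl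
        rw [this, Nat.floor_natCast]
      rw [e]
      apply sum_le_sum_of_subset_of_nonneg
      · intro p hp
        obtain ⟨a1, a2, a3⟩ := hfib p hp
        rw [mem_filter, mem_Ioc]
        exact ⟨⟨a1.pos, a3⟩, a1⟩
      · intro p hp _
        exact Real.log_nonneg (by exact_mod_cast (mem_filter.1 hp).2.one_le)
    have h3 : ((2 : ℝ) ^ k) ^ (-(1 + 2 * ε)) = r ^ k / 2 ^ k := by
      have e1 : (2 : ℝ) ^ k = Real.exp (k * Real.log 2) := by
        rw [← Real.exp_log hpk, Real.log_pow]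
      have e2 : r ^ k = Real.exp (-(k * x)) := by
        rw [hr, ← Real.exp_nat_mul]
        congr 1
        ring
      rw [Real.rpow_def_of_pos hpk, Real.log_pow, e2, div_eq_mul_inv, e1, ← Real.exp_neg,
        ← Real.exp_add]
      congr 1
      rw [hx]
      ring
    rw [h3]
    have h4 : Real.log 4 = 2 * Real.log 2 := by
      rw [show (4 : ℝ) = 2 ^ 2 by norm_num, Real.log_pow]; norm_num
    calc (∑ p ∈ S.filter (fun p => Nat.log 2 p = k), Real.log p) * (r ^ k / 2 ^ k) ≤
          (Real.log 4 * 2 ^ (k + 1)) * (r ^ k / 2 ^ k) :=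
          mul_le_mul_of_nonneg_right h2 (by positivity)
      _ = 4 * Real.log 2 * r ^ k := by
          rw [h4, pow_succ]
          field_simp
          ring
      _ ≤ 3 * r ^ k := by
          apply mul_le_mul_of_nonneg_right _ (by positivity)
          linarith
  refine (sum_le_sum hb).trans ?_
  rw [← mul_sum]
  have hrlt : r < 1 := by linarith
  have h1 : ∑ k ∈ range J, r ^ k ≤ 1 / (1 - r) := by
    have h2 := Summable.sum_le_tsum (range J) (fun k _ => (pow_pos hr0 k).le)
      (summable_geometric_of_lt_one hr0.le hrlt)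
    rw [tsum_geometric_of_lt_one hr0.le hrlt] at h2
    rw [one_div]
    exact h2
  have h2 : 1 / (1 - r) ≤ 1 / (ε / 2) := one_div_le_one_div_of_le (by positivity) hr1
  calc 3 * ∑ k ∈ range J, r ^ k ≤ 3 * (1 / (ε / 2)) := by linarith
    _ = 6 / ε := by field_simp; norm_num

lemma sym_sum (S : Finset ℕ) (f : ℕ → ℕ → ℝ) (hf : ∀ m n, 0 ≤ f m n) (hs : ∀ m n, f m n = f n m) :
    ∑ m ∈ S, ∑ n ∈ S, f m n ≤ 2 * ∑ m ∈ S, ∑ n ∈ S with m ≤ n, f m n := by
  have h1 : ∑ m ∈ S, ∑ n ∈ S, f m n ≤ ∑ m ∈ S, ∑ n ∈ S, ((if m ≤ n then f m n else 0) +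
      (if n ≤ m then f n m else 0)) := by
    apply sum_le_sum
    intro m _
    apply sum_le_sum
    intro n _
    rcases le_total m n with h | h
    · rw [if_pos h]
      have : 0 ≤ (if n ≤ m then f n m else 0) := by split_ifs <;> simp [hf]
      linarith
    · rw [if_pos h, hs m n]
      have : 0 ≤ (if m ≤ n then f n m else 0) := by split_ifs <;> simp [hf]
      linarith
  refine h1.trans (le_of_eq ?_)
  simp_rw [sum_add_distrib]
  rw [sum_comm (f := fun m n => if n ≤ m then f n m else 0), two_mul]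
  simp_rw [sum_filter]

/-- **The large primes.** -/
lemma large_part {H : ℝ} (hH : (120000 : ℝ) ≤ H) {ε : ℝ} (hε : 0 < ε) (hε1 : ε ≤ 1 / 2)
    (S : Finset ℕ) (hS : ∀ p ∈ S, p.Prime ∧ (4 * H) ^ 41 ≤ p) {c : ℕ → ℂ}
    (hc : ∀ p ∈ S, ‖c p‖ ≤ Real.log p * (p : ℝ) ^ (-(1 + ε))) :
    ∑ m ∈ S, ∑ n ∈ S, ‖c m‖ * ‖c n‖ * kk (H * (Real.log m - Real.log n)) ≤
      864 * Real.sqrt CT / (H * ε) := by
  have hH0 : 0 < H := by linarith
  have hCT := CT_pos
  refine (sym_sum S (fun m n => ‖c m‖ * ‖c n‖ * kk (H * (Real.log m - Real.log n)))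
    (fun m n => mul_nonneg (by positivity) (kk_nonneg _)) (fun m n => by
      have e : H * (Real.log m - Real.log n) = -(H * (Real.log n - Real.log m)) := by ring
      rw [e, kk_neg]
      ring)).trans ?_
  have h1 : ∀ m ∈ S, ∑ n ∈ S with m ≤ n, ‖c m‖ * ‖c n‖ * kk (H * (Real.log m - Real.log n)) ≤
      (Real.log m * (m : ℝ) ^ (-(1 + 2 * ε))) * (72 * Real.sqrt CT / H) := by
    intro m hm
    obtain ⟨hmp, hm1⟩ := hS m hm
    have hm0 : (0 : ℝ) < m := by exact_mod_cast hmp.pos
    have h2 : ∀ n ∈ S.filter (fun n => m ≤ n), ‖c m‖ * ‖c n‖ * kk (H * (Real.log m - Real.log n)) ≤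
        (Real.log m * (m : ℝ) ^ (-(1 + 2 * ε))) *
          (Real.log n / n * kk (H * (Real.log n - Real.log m))) := by
      intro n hn
      rw [mem_filter] at hn
      have hnp := (hS n hn.1).1
      have hn0 : (0 : ℝ) < n := by exact_mod_cast hnp.pos
      have hln : 0 ≤ Real.log n := Real.log_nonneg (by exact_mod_cast hnp.one_le)
      have hlm : 0 ≤ Real.log m := Real.log_nonneg (by exact_mod_cast hmp.one_le)
      have hmn : (m : ℝ) ≤ n := by exact_mod_cast hn.2
      have h3 : ‖c n‖ ≤ Real.log n / n * (m : ℝ) ^ (-ε) := by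
        refine (hc n hn.1).trans ?_
        have e : (n : ℝ) ^ (-(1 + ε)) = (n : ℝ)⁻¹ * (n : ℝ) ^ (-ε) := by
          rw [show -(1 + ε) = -1 + -ε by ring, Real.rpow_add hn0, Real.rpow_neg_one]
        rw [e, div_eq_mul_inv, mul_assoc]
        apply mul_le_mul_of_nonneg_left _ hln
        apply mul_le_mul_of_nonneg_left _ (by positivity)
        exact Real.rpow_le_rpow_of_nonpos hm0 hmn (by linarith)
      have e2 : H * (Real.log m - Real.log n) = -(H * (Real.log n - Real.log m)) := by ring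
      rw [e2, kk_neg]
      have h4 := hc m hm
      have e3 : (m : ℝ) ^ (-(1 + 2 * ε)) = (m : ℝ) ^ (-(1 + ε)) * (m : ℝ) ^ (-ε) := by
        rw [← Real.rpow_add hm0]
        congr 1
        ring
      rw [e3]
      calc ‖c m‖ * ‖c n‖ * kk (H * (Real.log n - Real.log m)) ≤
            (Real.log m * (m : ℝ) ^ (-(1 + ε))) * (Real.log n / n * (m : ℝ) ^ (-ε)) *
              kk (H * (Real.log n - Real.log m)) := by
            apply mul_le_mul_of_nonneg_right _ (kk_nonneg _)
            exact mul_le_mul h4 h3 (norm_nonneg _) (by positivity)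
        _ = _ := by ring
    refine (sum_le_sum h2).trans ?_
    rw [← mul_sum]
    apply mul_le_mul_of_nonneg_left
    · apply row hH hm1
      intro r hr
      rw [mem_filter] at hr
      exact ⟨(hS r hr.1).1, hr.2⟩
    · have hlm : 0 ≤ Real.log m := Real.log_nonneg (by exact_mod_cast hmp.one_le)
      positivity
  calc 2 * ∑ m ∈ S, ∑ n ∈ S with m ≤ n, ‖c m‖ * ‖c n‖ * kk (H * (Real.log m - Real.log n)) ≤
        2 * ∑ m ∈ S, (Real.log m * (m : ℝ) ^ (-(1 + 2 * ε))) * (72 * Real.sqrt CT / H) := by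
          apply mul_le_mul_of_nonneg_left (sum_le_sum h1) (by norm_num)
    _ = (2 * (72 * Real.sqrt CT / H)) * ∑ m ∈ S, Real.log m * (m : ℝ) ^ (-(1 + 2 * ε)) := by
        rw [← sum_mul]; ring
    _ ≤ (2 * (72 * Real.sqrt CT / H)) * (6 / ε) :=
        mul_le_mul_of_nonneg_left (cheb hε hε1 S fun p hp => (hS p hp).1) (by positivity)
    _ = _ := by field_simp; ring

/-- **The primes of medium size.** -/
lemma medium_part {H : ℝ} (hH : 0 < H) {X : ℕ} (S : Finset ℕ) (hS : S ⊆ Icc 1 X) {c : ℕ → ℂ}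
    {B : ℝ} (hc : ∀ n ∈ S, ‖c n‖ ≤ B / n) :
    ∑ m ∈ S, ∑ n ∈ S, ‖c m‖ * ‖c n‖ * kk (H * (Real.log m - Real.log n)) ≤
      12 * ∑ n ∈ S, ‖c n‖ ^ 2 + 6 * B ^ 2 * hr X ^ 2 / H := by
  refine (sym_sum S (fun m n => ‖c m‖ * ‖c n‖ * kk (H * (Real.log m - Real.log n)))
    (fun m n => mul_nonneg (by positivity) (kk_nonneg _)) (fun m n => by
      have e : H * (Real.log m - Real.log n) = -(H * (Real.log n - Real.log m)) := by ring
      rw [e, kk_neg]
      ring)).trans ?_
  have hhr := hr_nonneg X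
  have hsum : ∀ m ∈ S, ∑ n ∈ (Icc 1 X).filter (fun n => m < n), 1 / ((n : ℝ) - m) ≤ hr X := by
    intro m _
    unfold hr
    have hinj : Set.InjOn (fun n => n - m - 1) ((Icc 1 X).filter (fun n => m < n) : Set ℕ) := by
      intro a ha b hb hab
      rw [mem_coe, mem_filter] at ha hb
      simp only at hab
      omega
    have h1 : ∑ n ∈ (Icc 1 X).filter (fun n => m < n), 1 / ((n : ℝ) - m) =
        ∑ k ∈ ((Icc 1 X).filter (fun n => m < n)).image (fun n => n - m - 1), 1 / ((k : ℝ) + 1) := by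
      rw [sum_image hinj]
      apply sum_congr rfl
      intro n hn
      rw [mem_filter] at hn
      congr 1
      have h2 : n - m - 1 + 1 + m = n := by omega
      have h3 : ((n - m - 1 : ℕ) : ℝ) + 1 + m = n := by exact_mod_cast h2
      linarith
    rw [h1]
    apply sum_le_sum_of_subset_of_nonneg
    · intro k hk
      rw [mem_image] at hk
      obtain ⟨n, hn, rfl⟩ := hk
      rw [mem_filter, mem_Icc] at hn
      rw [mem_range]
      omega
    · intro k _ _
      positivity
  have hsum2 : ∑ m ∈ S, 1 / (m : ℝ) ≤ hr X := by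
    unfold hr
    have h1 : ∑ m ∈ S, 1 / (m : ℝ) ≤ ∑ m ∈ Icc 1 X, 1 / (m : ℝ) :=
      sum_le_sum_of_subset_of_nonneg hS fun _ _ _ => by positivity
    refine h1.trans (le_of_eq ?_)
    symm
    apply sum_bij (fun (i : ℕ) _ => i + 1)
    · intro i hi
      rw [mem_range] at hi
      rw [mem_Icc]
      omega
    · intro i _ j _ hij
      omega
    · intro j hj
      rw [mem_Icc] at hj
      exact ⟨j - 1, by rw [mem_range]; omega, by omega⟩
    · intro i _
      push_cast
      rfl
  have h1 : ∀ m ∈ S, ∑ n ∈ S with m ≤ n, ‖c m‖ * ‖c n‖ * kk (H * (Real.log m - Real.log n)) ≤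
      6 * ‖c m‖ ^ 2 + (3 * B ^ 2 * hr X / H) * (1 / m) := by
    intro m hm
    have hm1 := (mem_Icc.1 (hS hm)).1
    have hm0 : (0 : ℝ) < m := by exact_mod_cast hm1
    have hB : 0 ≤ B := by
      have := (norm_nonneg _).trans (hc m hm)
      rwa [le_div_iff₀ hm0, zero_mul] at this
    have h2 : ∀ n ∈ S.filter (fun n => m ≤ n), ‖c m‖ * ‖c n‖ * kk (H * (Real.log m - Real.log n)) ≤
        (if n = m then 6 * ‖c m‖ ^ 2 else 0) +
          (if m < n then (3 * B ^ 2 / (H * m)) * (1 / ((n : ℝ) - m)) else 0) := by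
      intro n hn
      rw [mem_filter] at hn
      rcases eq_or_lt_of_le hn.2 with h | h
      · subst h
        rw [if_pos rfl, if_neg (lt_irrefl _), add_zero, sub_self, mul_zero]
        unfold kk
        refine le_of_eq ?_
        norm_num
        ring
      · rw [if_neg (ne_of_gt h), if_pos h, zero_add]
        have hn0 : (0 : ℝ) < n := by
          have : 0 < n := by omega
          exact_mod_cast this
        have hnm : (0 : ℝ) < (n : ℝ) - m := by
          rw [sub_pos]
          exact_mod_cast h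
        have h3 : ((n : ℝ) - m) / n ≤ Real.log n - Real.log m := by
          have h4 := Real.log_le_sub_one_of_pos (x := (m : ℝ) / n) (by positivity)
          rw [Real.log_div hm0.ne' hn0.ne'] at h4
          have e : ((n : ℝ) - m) / n = 1 - m / n := by field_simp
          rw [e]
          linarith
        set y : ℝ := H * (Real.log m - Real.log n) with hy
        have hy2 : H * (((n : ℝ) - m) / n) ≤ |y| := by
          rw [hy, abs_mul, abs_of_pos hH, abs_sub_comm]
          apply mul_le_mul_of_nonneg_left _ hH.le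
          exact h3.trans (le_abs_self _)
        have hq0 : 0 < H * (((n : ℝ) - m) / n) := by positivity
        have h5 : kk y ≤ 3 / (H * (((n : ℝ) - m) / n)) := by
          unfold kk
          rw [div_le_div_iff₀ (by positivity) hq0]
          have h6 : 2 * |y| ≤ 1 + y ^ 2 := by
            rw [← sq_abs y]
            nlinarith [sq_nonneg (|y| - 1)]
          nlinarith
        calc ‖c m‖ * ‖c n‖ * kk y ≤ (B / m) * (B / n) * (3 / (H * (((n : ℝ) - m) / n))) := by
              apply mul_le_mul _ h5 (kk_nonneg _) (by positivity)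
              exact mul_le_mul (hc m hm) (hc n hn.1) (norm_nonneg _) (by positivity)
          _ = _ := by
              field_simp
    refine (sum_le_sum h2).trans ?_
    rw [sum_add_distrib]
    apply add_le_add
    · rw [sum_ite_eq' (S.filter (fun n => m ≤ n)) m]
      split_ifs
      · exact le_rfl
      · positivity
    · rw [← sum_filter, ← mul_sum]
      have h3 : ∑ n ∈ (S.filter (fun n => m ≤ n)).filter (fun n => m < n), 1 / ((n : ℝ) - m) ≤ hr X := by
        refine le_trans ?_ (hsum m hm)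
        apply sum_le_sum_of_subset_of_nonneg
        · intro n hn
          rw [mem_filter, mem_filter] at hn
          exact mem_filter.2 ⟨hS hn.1.1, hn.2⟩
        · intro n hn _
          rw [mem_filter] at hn
          have : (0 : ℝ) < (n : ℝ) - m := by
            rw [sub_pos]
            exact_mod_cast hn.2
          positivity
      calc 3 * B ^ 2 / (H * m) * ∑ n ∈ (S.filter (fun n => m ≤ n)).filter (fun n => m < n),
            1 / ((n : ℝ) - m) ≤ 3 * B ^ 2 / (H * m) * hr X :=
            mul_le_mul_of_nonneg_left h3 (by positivity)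
        _ = _ := by field_simp
  rcases S.eq_empty_or_nonempty with hSe | ⟨m₁, hm₁⟩
  · rw [hSe]
    simp only [sum_empty, mul_zero, zero_add]
    positivity
  have hB : 0 ≤ B := by
    have hm1 := (mem_Icc.1 (hS hm₁)).1
    have hm0 : (0 : ℝ) < m₁ := by exact_mod_cast hm1
    have := (norm_nonneg _).trans (hc m₁ hm₁)
    rwa [le_div_iff₀ hm0, zero_mul] at this
  calc 2 * ∑ m ∈ S, ∑ n ∈ S with m ≤ n, ‖c m‖ * ‖c n‖ * kk (H * (Real.log m - Real.log n)) ≤
        2 * ∑ m ∈ S, (6 * ‖c m‖ ^ 2 + (3 * B ^ 2 * hr X / H) * (1 / m)) :=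
        mul_le_mul_of_nonneg_left (sum_le_sum h1) (by norm_num)
    _ = 12 * ∑ n ∈ S, ‖c n‖ ^ 2 + (6 * B ^ 2 * hr X / H) * ∑ m ∈ S, 1 / (m : ℝ) := by
        rw [sum_add_distrib, ← mul_sum, ← mul_sum]
        ring
    _ ≤ 12 * ∑ n ∈ S, ‖c n‖ ^ 2 + (6 * B ^ 2 * hr X / H) * hr X := by
        apply add_le_add le_rfl
        exact mul_le_mul_of_nonneg_left hsum2 (by positivity)
    _ = _ := by ring

end Pool.Agent.H439.FA
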