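import Pool.Agent.H439.FA.Final

/-!
# The second moment
-/

set_option autoImplicit false
set_option linter.unusedSectionVars false

namespace Pool.Agent.H439.FA

open Finset Complex ComplexConjugate Filter Topology MeasureTheory ProbabilityTheory NumberField
  IsDedekindDomain Pool.Agent.TH339.MP Pool.Agent.H439.LS Pool.Agent.H439.LL Pool.Agent.H439.TA

section
variable {Ω : Type} [MeasurableSpace Ω] {μ : Measure Ω} {X : ℕ → Ω → ℂ}

lemma ex_one_pow (x : ℝ) (i : ℕ) : ex 1 x ^ i = ex i x := by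
  induction i with
  | zero => rw [pow_zero, Nat.cast_zero, ex_zero]
  | succ i ih => rw [pow_succ, ih, Nat.cast_succ, ex_add]

/-- orthogonality of the values at prime powers -/
lemma orth_pow (h : Steinhaus μ X) {p r : ℕ} (hp : p.Prime) (hr : r.Prime) {i j : ℕ} (hi : i ≠ 0)
    (hj : j ≠ 0) : ∫ ω, conj (gX 1 X ω (p ^ i)) * gX 1 X ω (r ^ j) ∂μ =
      if p ^ i = r ^ j then 1 else 0 := by
  have hprob := h.prob
  obtain ⟨θ, h1, h2, h3, h4⟩ := h.angles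
  have hval : ∀ (q : ℕ) (hq : q.Prime) (k : ℕ) (ω : Ω), gX 1 X ω (q ^ k) = ex k (θ ⟨q, hq⟩ ω) := by
    intro q hq k ω
    unfold gX
    rw [if_pos (Nat.coprime_one_right _), h.pow hq, h4 ⟨q, hq⟩ ω, ← ex_one, ex_one_pow]
  have hval2 : ∀ ω, conj (gX 1 X ω (p ^ i)) * gX 1 X ω (r ^ j) =
      ex (-(i : ℤ)) (θ ⟨p, hp⟩ ω) * ex j (θ ⟨r, hr⟩ ω) := by
    intro ω
    rw [hval p hp, hval r hr, ← ex_neg]
  simp_rw [hval2]
  by_cases hpr : p = r
  · subst hpr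
    have h5 : ∀ ω, ex (-(i : ℤ)) (θ ⟨p, hp⟩ ω) * ex j (θ ⟨p, hr⟩ ω) =
        ex (-(i : ℤ) + j) (θ ⟨p, hp⟩ ω) := fun ω => (ex_add _ _ _).symm
    simp_rw [h5]
    rw [integral_ex (h1 _) (h2 _)]
    by_cases hij : i = j
    · subst hij
      simp
    · have h6 : ¬ (-(i : ℤ) + j = 0) := by omega
      have h7 : ¬ (p ^ i = p ^ j) := fun h0 => hij (Nat.pow_right_injective hp.two_le h0)
      rw [if_neg h6, if_neg h7]
  · have hne : (⟨p, hp⟩ : Nat.Primes) ≠ ⟨r, hr⟩ := fun h0 => hpr (congrArg Subtype.val h0)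
    have h5 := (h3.indepFun hne).integral_fun_comp_mul_comp (f := ex (-(i : ℤ))) (g := ex j)
      (h1 _).aemeasurable (h1 _).aemeasurable (continuous_ex _).aestronglyMeasurable
      (continuous_ex _).aestronglyMeasurable
    rw [h5, integral_ex (h1 _) (h2 _), integral_ex (h1 _) (h2 _)]
    have h6 : ¬ (-(i : ℤ) = 0) := by omega
    have h7 : ¬ (p ^ i = r ^ j) := by
      intro h0
      have h8 : p ∣ r ^ j := h0 ▸ dvd_pow_self p hi
      exact hpr ((Nat.prime_dvd_prime_iff_eq hp hr).1 (hp.dvd_of_dvd_pow h8))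
    rw [if_neg h6, if_neg h7, zero_mul]

/-- the mean square of a finite sum over prime powers -/
lemma ms_pow (h : Steinhaus μ X) (T : Finset ℕ)
    (hT : ∀ n ∈ T, ∃ p k : ℕ, p.Prime ∧ k ≠ 0 ∧ n = p ^ k) (b : ℕ → ℂ) :
    ∫ ω, ‖∑ n ∈ T, b n * gX 1 X ω n‖ ^ 2 ∂μ = ∑ n ∈ T, ‖b n‖ ^ 2 := by
  classical
  have hprob := h.prob
  have hm : ∀ n ∈ T, Measurable fun ω => gX 1 X ω n := by
    intro n hn
    obtain ⟨p, k, hp, hk, rfl⟩ := hT n hn
    have e : ∀ ω, gX 1 X ω (p ^ k) = gX 1 X ω p ^ k := fun ω => (pm_gX h 1 ω).pow p hp k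
    simp_rw [e]
    exact (measurable_gX h 1 hp).pow_const _
  have hn1 : ∀ n ∈ T, ∀ ω, ‖gX 1 X ω n‖ ≤ 1 := by
    intro n hn ω
    obtain ⟨p, k, hp, hk, rfl⟩ := hT n hn
    rw [(pm_gX h 1 ω).pow p hp k, norm_pow]
    exact pow_le_one₀ (norm_nonneg _) ((pm_gX h 1 ω).le p hp)
  have h2 : ((∫ ω, ‖∑ n ∈ T, b n * gX 1 X ω n‖ ^ 2 ∂μ : ℝ) : ℂ) = ∑ n ∈ T, (‖b n‖ : ℂ) ^ 2 := by
    rw [← integral_complex_ofReal]
    have h3 : ∀ ω, ((‖∑ n ∈ T, b n * gX 1 X ω n‖ ^ 2 : ℝ) : ℂ) =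
        ∑ m ∈ T, ∑ n ∈ T, conj (b m) * b n * (conj (gX 1 X ω m) * gX 1 X ω n) := by
      intro ω
      push_cast
      rw [← conj_mul', map_sum, sum_mul_sum]
      apply sum_congr rfl
      intro m _
      apply sum_congr rfl
      intro n _
      rw [map_mul]
      ring
    simp_rw [h3]
    have hint : ∀ m ∈ T, ∀ n ∈ T, Integrable (fun ω => conj (b m) * b n *
        (conj (gX 1 X ω m) * gX 1 X ω n)) μ := by
      intro m hmT n hnT
      apply Integrable.const_mul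
      refine Integrable.of_bound ?_ 1 ?_
      · exact ((Complex.continuous_conj.measurable.comp (hm m hmT)).mul
          (hm n hnT)).aestronglyMeasurable
      · exact Eventually.of_forall fun ω => by
          rw [norm_mul, Complex.norm_conj]
          exact mul_le_one₀ (hn1 m hmT ω) (norm_nonneg _) (hn1 n hnT ω)
    rw [integral_finsetSum _ fun m hmT => integrable_finsetSum _ fun n hnT => hint m hmT n hnT]
    apply sum_congr rfl
    intro m hmT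
    rw [integral_finsetSum _ fun n hnT => hint m hmT n hnT]
    have h4 : ∀ n ∈ T, ∫ ω, conj (b m) * b n * (conj (gX 1 X ω m) * gX 1 X ω n) ∂μ =
        if m = n then conj (b m) * b n else 0 := by
      intro n hnT
      obtain ⟨p, i, hp, hi, rfl⟩ := hT m hmT
      obtain ⟨q, j, hq, hj, rfl⟩ := hT n hnT
      rw [integral_const_mul, orth_pow h hp hq hi hj]
      split_ifs <;> simp
    rw [sum_congr rfl h4, sum_ite_eq, if_pos hmT, conj_mul']
  exact_mod_cast h2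

end

section
variable {K : Type} [Field K] [NumberField K]

/-- the coefficient at `n` -/
noncomputable def bn (a : HeightOneSpectrum (𝓞 K) → ℂ) (n : ℕ) : ℂ :=
  ∑ v ∈ Vy K (n : ℝ) with nm v = n, a v

lemma FY_bn (a : HeightOneSpectrum (𝓞 K) → ℂ) (g : ℕ → ℂ) (ε : ℝ) (Y : ℕ) :
    FY a g ε Y = ∑ n ∈ (Vy K (Y : ℝ)).image nm, (bn a n * (wt ε n : ℂ)) * g n := by
  classical
  unfold FY
  rw [← sum_fiberwise_of_maps_to (s := Vy K (Y : ℝ)) (t := (Vy K (Y : ℝ)).image nm) (g := nm)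
    (fun v hv => mem_image_of_mem _ hv)]
  apply sum_congr rfl
  intro n hn
  rw [mem_image] at hn
  obtain ⟨w, hw, rfl⟩ := hn
  unfold bn
  have h1 : (Vy K (Y : ℝ)).filter (fun v => nm v = nm w) =
      (Vy K ((nm w : ℕ) : ℝ)).filter (fun v => nm v = nm w) := by
    ext v
    rw [mem_filter, mem_filter, mem_Vy, mem_Vy]
    constructor
    · rintro ⟨_, h⟩
      exact ⟨by rw [h], h⟩
    · rintro ⟨_, h⟩
      refine ⟨?_, h⟩
      rw [h]
      exact mem_Vy.1 hw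
  rw [h1, sum_mul, sum_mul]
  apply sum_congr rfl
  intro v hv
  rw [mem_filter] at hv
  unfold ft
  rw [hv.2]
  ring

/-- the mean square of the partial sums -/
lemma ms_FY {Ω : Type} [MeasurableSpace Ω] {μ : Measure Ω} {X : ℕ → Ω → ℂ} (hX : Steinhaus μ X)
    (a : HeightOneSpectrum (𝓞 K) → ℂ) (Y : ℕ) :
    ∫ ω, ‖FY a (gX 1 X ω) 0 Y‖ ^ 2 ∂μ = ∑ n ∈ range (Y + 1), (‖bn a n‖ * wt 0 n) ^ 2 := by
  classical
  simp_rw [FY_bn]
  rw [ms_pow hX]
  · have h1 : (Vy K (Y : ℝ)).image nm ⊆ range (Y + 1) := by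
      intro n hn
      rw [mem_image] at hn
      obtain ⟨w, hw, rfl⟩ := hn
      rw [mem_Vy] at hw
      rw [mem_range]
      have : nm w ≤ Y := by exact_mod_cast hw
      omega
    have h2 : ∀ n, ‖bn a n * (wt 0 n : ℂ)‖ ^ 2 = (‖bn a n‖ * wt 0 n) ^ 2 := by
      intro n
      rw [norm_mul, Complex.norm_real, Real.norm_of_nonneg (wt_nonneg _ _)]
    simp_rw [h2]
    apply sum_subset h1
    intro n hn hn'
    have h3 : bn a n = 0 := by
      unfold bn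
      apply sum_eq_zero
      intro v hv
      exfalso
      rw [mem_filter] at hv
      apply hn'
      rw [mem_image]
      refine ⟨v, ?_, hv.2⟩
      rw [mem_Vy, hv.2]
      rw [mem_range] at hn
      exact_mod_cast Nat.lt_succ_iff.1 hn
    rw [h3, norm_zero, zero_mul]
    norm_num
  · intro n hn
    rw [mem_image] at hn
    obtain ⟨w, _, rfl⟩ := hn
    exact ⟨(pr w : Nat.Primes), dg w, (pr w).2, (dg_pos w).ne', nm_eq w⟩

/-- the limit of the mean squares -/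
lemma ms_limit {Ω : Type} [MeasurableSpace Ω] {μ : Measure Ω} [IsProbabilityMeasure μ]
    {Z : Ω → ℂ} {W : ℕ → Ω → ℂ} {d : ℕ → ℝ} (hd : Tendsto d atTop (𝓝 0))
    (hZ : Integrable (fun ω => ‖Z ω‖ ^ 2) μ) (hW : ∀ N, Integrable (fun ω => ‖W N ω‖ ^ 2) μ)
    (hi : ∀ᶠ N in atTop, Integrable (fun ω => ‖Z ω - W N ω‖ ^ 2) μ ∧
      ∫ ω, ‖Z ω - W N ω‖ ^ 2 ∂μ ≤ d N) :
    Tendsto (fun N => ∫ ω, ‖W N ω‖ ^ 2 ∂μ) atTop (𝓝 (∫ ω, ‖Z ω‖ ^ 2 ∂μ)) := by
  set A : ℝ := ∫ ω, ‖Z ω‖ ^ 2 ∂μ with hA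
  have hA0 : 0 ≤ A := integral_nonneg fun ω => by positivity
  rw [Metric.tendsto_atTop']
  intro η hη
  set θ : ℝ := min (1 / 2) (η / (4 * (A + 1))) with hθ
  have hθ0 : 0 < θ := by positivity
  have hθ1 : θ ≤ 1 / 2 := min_le_left _ _
  have hθ2 : θ * (4 * (A + 1)) ≤ η := by
    have := min_le_right (1 / 2) (η / (4 * (A + 1)))
    calc θ * (4 * (A + 1)) ≤ η / (4 * (A + 1)) * (4 * (A + 1)) :=
          mul_le_mul_of_nonneg_right this (by positivity)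
      _ = η := by field_simp
  have h1 : ∀ᶠ N in atTop, (1 + 1 / θ) * d N < η / 4 := by
    have h2 := hd.const_mul (1 + 1 / θ)
    rw [mul_zero] at h2
    exact h2.eventually (gt_mem_nhds (by positivity))
  obtain ⟨N₀, hN₀⟩ := Filter.eventually_atTop.1 (hi.and h1)
  refine ⟨N₀, fun N hN => ?_⟩
  obtain ⟨⟨h2, h3⟩, h4⟩ := hN₀ N hN.le
  set B : ℝ := ∫ ω, ‖W N ω‖ ^ 2 ∂μ with hB
  set E : ℝ := ∫ ω, ‖Z ω - W N ω‖ ^ 2 ∂μ with hE
  have key : ∀ x y : ℂ, ‖x‖ ^ 2 ≤ (1 + θ) * ‖y‖ ^ 2 + (1 + 1 / θ) * ‖y - x‖ ^ 2 := by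
    intro x y
    have h5 : ‖x‖ ≤ ‖y‖ + ‖y - x‖ := by
      have e : x = y - (y - x) := by ring
      calc ‖x‖ = ‖y - (y - x)‖ := by rw [← e]
        _ ≤ _ := norm_sub_le _ _
    have h6 := pow_le_pow_left₀ (norm_nonneg _) h5 2
    have h7 : 2 * ‖y‖ * ‖y - x‖ ≤ θ * ‖y‖ ^ 2 + (1 / θ) * ‖y - x‖ ^ 2 := by
      have h8 : 0 ≤ (θ * ‖y‖ - ‖y - x‖) ^ 2 / θ := by positivity
      have e : (θ * ‖y‖ - ‖y - x‖) ^ 2 / θ =
          θ * ‖y‖ ^ 2 - 2 * ‖y‖ * ‖y - x‖ + (1 / θ) * ‖y - x‖ ^ 2 := by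
        field_simp
        ring
      linarith
    nlinarith
  have h5 : B ≤ (1 + θ) * A + (1 + 1 / θ) * E := by
    have h6 : B ≤ ∫ ω, ((1 + θ) * ‖Z ω‖ ^ 2 + (1 + 1 / θ) * ‖Z ω - W N ω‖ ^ 2) ∂μ :=
      integral_mono (hW N) ((hZ.const_mul _).add (h2.const_mul _)) fun ω => key (W N ω) (Z ω)
    rwa [integral_add (hZ.const_mul _) (h2.const_mul _), integral_const_mul,
      integral_const_mul] at h6
  have h6 : A ≤ (1 + θ) * B + (1 + 1 / θ) * E := by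
    have h7 : A ≤ ∫ ω, ((1 + θ) * ‖W N ω‖ ^ 2 + (1 + 1 / θ) * ‖Z ω - W N ω‖ ^ 2) ∂μ := by
      apply integral_mono hZ (((hW N).const_mul _).add (h2.const_mul _))
      intro ω
      have := key (Z ω) (W N ω)
      rw [norm_sub_rev] at this
      exact this
    rwa [integral_add ((hW N).const_mul _) (h2.const_mul _), integral_const_mul,
      integral_const_mul] at h7
  have h7 : (1 + 1 / θ) * E ≤ (1 + 1 / θ) * d N := mul_le_mul_of_nonneg_left h3 (by positivity)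
  rw [Real.dist_eq, abs_lt]
  have hB0 : 0 ≤ B := integral_nonneg fun ω => by positivity
  constructor
  · nlinarith
  · nlinarith

/-- **The second moment.** -/
theorem second {a : HeightOneSpectrum (𝓞 K) → ℂ} {M : ℝ} (hM : 0 ≤ M) (ha : ∀ v, ‖a v‖ ≤ M)
    {Ω : Type} [MeasurableSpace Ω] {μ : Measure Ω} {X : ℕ → Ω → ℂ} (hX : Steinhaus μ X)
    {Z : Ω → ℂ} (hZm : Measurable Z) (hZ2 : Integrable (fun ω => ‖Z ω‖ ^ 2) μ)
    (hZ : ∀ Y : ℕ, 1 ≤ Y → ∫ ω, ‖Z ω - FY a (gX 1 X ω) 0 Y‖ ^ 2 ∂μ ≤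
      dl ((Module.finrank ℚ K : ℝ) * M) Y) :
    HasSum (fun n : ℕ => (‖bn a n‖ * wt 0 n) ^ 2) (∫ ω, ‖Z ω‖ ^ 2 ∂μ) := by
  have hprob := hX.prob
  have hW : ∀ N : ℕ, Integrable (fun ω => ‖FY a (gX 1 X ω) 0 N‖ ^ 2) μ := by
    intro N
    refine Integrable.of_bound ((meas_FY hX a 0 N).norm.pow_const 2).aestronglyMeasurable
      (bY K M N ^ 2) (Eventually.of_forall fun ω => ?_)
    rw [norm_pow, norm_norm]
    exact pow_le_pow_left₀ (norm_nonneg _) (norm_FY hM ha (pm_gX hX 1 ω) le_rfl N) 2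
  have h1 := ms_limit (tendsto_dl ((Module.finrank ℚ K : ℝ) * M)) hZ2 hW (by
    filter_upwards [eventually_ge_atTop 1] with N hN
    refine ⟨?_, hZ N hN⟩
    refine Integrable.mono' ((hZ2.const_mul 2).add ((hW N).const_mul 2))
      ((hZm.sub (meas_FY hX a 0 N)).norm.pow_const 2).aestronglyMeasurable
      (Eventually.of_forall fun ω => ?_)
    rw [norm_pow, norm_norm]
    change ‖Z ω - FY a (gX 1 X ω) 0 N‖ ^ 2 ≤ 2 * ‖Z ω‖ ^ 2 + 2 * ‖FY a (gX 1 X ω) 0 N‖ ^ 2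
    have h2 := pow_le_pow_left₀ (norm_nonneg _)
      (norm_sub_le (Z ω) (FY a (gX 1 X ω) 0 N)) 2
    nlinarith [sq_nonneg (‖Z ω‖ - ‖FY a (gX 1 X ω) 0 N‖)])
  simp_rw [ms_FY hX] at h1
  rw [hasSum_iff_tendsto_nat_of_nonneg (fun n => by positivity)]
  exact (tendsto_add_atTop_iff_nat (f := fun N => ∑ n ∈ range N, (‖bn a n‖ * wt 0 n) ^ 2) 1).1 h1

end

end Pool.Agent.H439.FA
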