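import Pool.Agent.H439.FA.Parts
import Pool.Agent.H439.TA.Tail

/-!
# The mean square of the tail
-/

set_option autoImplicit false

namespace Pool.Agent.H439.FA

open Finset Complex ComplexConjugate Filter Topology MeasureTheory Pool.Agent.H439.LS
  Pool.Agent.H439.LL Pool.Agent.H439.TA

/-- the weight -/
noncomputable def wt (ε : ℝ) (n : ℕ) : ℝ := Real.log n * (n : ℝ) ^ (-(1 + ε))

lemma wt_nonneg (ε : ℝ) (n : ℕ) : 0 ≤ wt ε n := by
  unfold wt
  rcases Nat.eq_zero_or_pos n with h | h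
  · subst h; simp
  · have : 0 ≤ Real.log n := Real.log_nonneg (by exact_mod_cast h)
    positivity

lemma wt_le {ε : ℝ} (hε : 0 ≤ ε) {n : ℕ} (hn : 0 < n) : wt ε n ≤ Real.log n / n := by
  unfold wt
  have h1 : (1 : ℝ) ≤ n := by exact_mod_cast hn
  have : 0 ≤ Real.log n := Real.log_nonneg h1
  rw [div_eq_mul_inv]
  apply mul_le_mul_of_nonneg_left _ this
  rw [← Real.rpow_neg_one]
  exact Real.rpow_le_rpow_of_exponent_le h1 (by linarith)

lemma wt_sq_le {ε : ℝ} (hε : 0 ≤ ε) {n : ℕ} (hn : 0 < n) :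
    wt ε n ^ 2 ≤ 16 / (n * Real.sqrt n) := by
  have hn0 : (0 : ℝ) < n := by exact_mod_cast hn
  have h1 := pow_le_pow_left₀ (wt_nonneg ε n) (wt_le hε hn) 2
  refine h1.trans ?_
  have h2 := Real.log_le_rpow_div hn0.le (by norm_num : (0 : ℝ) < 1 / 4)
  have h3 : 0 ≤ Real.log n := Real.log_nonneg (by exact_mod_cast hn)
  have h4 : Real.log n ^ 2 ≤ 16 * Real.sqrt n := by
    have h5 := pow_le_pow_left₀ h3 h2 2
    refine h5.trans (le_of_eq ?_)
    rw [div_pow, ← Real.rpow_natCast, ← Real.rpow_mul hn0.le, Real.sqrt_eq_rpow]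
    norm_num
    ring
  rw [div_pow]
  have h6 : 16 / ((n : ℝ) * Real.sqrt n) = 16 * Real.sqrt n / n ^ 2 := by
    have hs : 0 < Real.sqrt n := Real.sqrt_pos.2 hn0
    have hs2 : Real.sqrt n * Real.sqrt n = n := Real.mul_self_sqrt hn0.le
    rw [div_eq_div_iff (by positivity) (by positivity)]
    nlinarith
  rw [h6]
  exact div_le_div_of_nonneg_right h4 (by positivity)

lemma tele {Y : ℕ} (hY : 1 ≤ Y) (N : ℕ) :
    ∑ n ∈ Ioc Y N, 1 / ((n : ℝ) * Real.sqrt n) ≤ 2 / Real.sqrt Y := by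
  have h1 : ∀ n : ℕ, 1 ≤ n → 1 / (((n + 1 : ℕ) : ℝ) * Real.sqrt (n + 1 : ℕ)) ≤
      2 * (1 / Real.sqrt n - 1 / Real.sqrt (n + 1 : ℕ)) := by
    intro n hn
    have hn0 : (0 : ℝ) < n := by exact_mod_cast hn
    set a := Real.sqrt n with ha
    set b := Real.sqrt ((n + 1 : ℕ) : ℝ) with hb
    have ha0 : 0 < a := Real.sqrt_pos.2 hn0
    have hab : a ≤ b := Real.sqrt_le_sqrt (by push_cast; linarith)
    have hb0 : 0 < b := lt_of_lt_of_le ha0 hab
    have ha2 : a * a = n := Real.mul_self_sqrt hn0.le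
    have hb2 : b * b = ((n + 1 : ℕ) : ℝ) := Real.mul_self_sqrt (Nat.cast_nonneg _)
    have h2 : b * b - a * a = 1 := by rw [ha2, hb2]; push_cast; ring
    rw [← hb2]
    have e : 2 * (1 / a - 1 / b) = 2 * (b - a) / (a * b) := by field_simp
    rw [e, div_le_div_iff₀ (by positivity) (by positivity), one_mul]
    have h3 : (b - a) * (b + a) = 1 := by linarith
    have h4 : 1 ≤ 2 * (b - a) * b := by nlinarith
    have h5 : a * b * 1 ≤ b * b * (2 * (b - a) * b) := by
      apply mul_le_mul _ h4 (by norm_num) (by positivity)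
      exact mul_le_mul_of_nonneg_right hab hb0.le
    nlinarith
  have h2 : ∀ k : ℕ, ∑ n ∈ Ioc Y (Y + k), 1 / ((n : ℝ) * Real.sqrt n) ≤
      2 * (1 / Real.sqrt Y - 1 / Real.sqrt ((Y + k : ℕ) : ℝ)) := by
    intro k
    induction k with
    | zero => simp
    | succ k ih =>
      rw [← add_assoc, sum_Ioc_succ_top (by omega)]
      have := h1 (Y + k) (by omega)
      linarith
  have h3 : ∑ n ∈ Ioc Y N, 1 / ((n : ℝ) * Real.sqrt n) ≤
      ∑ n ∈ Ioc Y (Y + N), 1 / ((n : ℝ) * Real.sqrt n) := by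
    apply sum_le_sum_of_subset_of_nonneg
    · apply Ioc_subset_Ioc_right; omega
    · intro n _ _; positivity
  refine h3.trans ((h2 N).trans ?_)
  have h4 : 0 ≤ 1 / Real.sqrt ((Y + N : ℕ) : ℝ) := by positivity
  have h5 : 2 / Real.sqrt (Y : ℝ) = 2 * (1 / Real.sqrt Y) := by ring
  rw [h5]
  linarith

lemma sum_wt_sq {Y : ℕ} (hY : 1 ≤ Y) {ε : ℝ} (hε : 0 ≤ ε) (S : Finset ℕ) (hS : ∀ n ∈ S, Y < n) :
    ∑ n ∈ S, wt ε n ^ 2 ≤ 32 / Real.sqrt Y := by
  have h1 : ∀ n ∈ S, wt ε n ^ 2 ≤ 16 * (1 / ((n : ℝ) * Real.sqrt n)) := by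
    intro n hn
    have := wt_sq_le hε (n := n) (by have := hS n hn; omega)
    rwa [mul_one_div]
  refine (sum_le_sum h1).trans ?_
  rw [← mul_sum]
  have h2 : ∑ n ∈ S, 1 / ((n : ℝ) * Real.sqrt n) ≤
      ∑ n ∈ Ioc Y (S.sup id), 1 / ((n : ℝ) * Real.sqrt n) := by
    apply sum_le_sum_of_subset_of_nonneg
    · intro n hn
      rw [mem_Ioc]
      exact ⟨hS n hn, le_sup (f := id) hn⟩
    · intro n _ _; positivity
  have h3 := tele hY (S.sup id)
  have h4 : 32 / Real.sqrt (Y : ℝ) = 16 * (2 / Real.sqrt Y) := by ring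
  rw [h4]
  linarith

/-- the constant -/
noncomputable def CA : ℝ := 1111719264 + 3456 * Real.sqrt CT

lemma CA_pos : 0 < CA := by unfold CA; have := CT_pos; positivity

/-- **The mean square of a finite part of the tail.** -/
lemma fin_ms {H : ℝ} (hH : (120000 : ℝ) ≤ H) {ε : ℝ} (hε : 0 < ε) (hε1 : ε ≤ 1 / 2) (U : ℝ)
    {c : ℕ → ℂ} {M : ℝ} (hM : 0 ≤ M) (hc : ∀ p : ℕ, p.Prime → ‖c p‖ ≤ M) {Y : ℕ} (hY : 1 ≤ Y)
    (S : Finset ℕ) (hS : ∀ p ∈ S, p.Prime ∧ Y < p) :
    ∫ t, ‖∑ p ∈ S, c p * (ph (-t) p * (wt ε p : ℂ))‖ ^ 2 ∂(tau U H) ≤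
      M ^ 2 * (1536 / Real.sqrt Y + CA * (Real.log H ^ 4 / H) + CA / (H * ε)) := by
  classical
  have hH0 : 0 < H := by linarith
  have hCT := CT_pos
  set X : ℕ := ⌊(4 * H) ^ 41⌋₊ with hX
  set S₁ := S.filter fun p => p ≤ X with hS₁
  set S₂ := S.filter fun p => ¬ p ≤ X with hS₂
  set c' : ℕ → ℂ := fun p => c p * (wt ε p : ℂ) with hc'
  have hnc' : ∀ p : ℕ, p.Prime → ‖c' p‖ ≤ M * wt ε p := by
    intro p hp
    simp only [hc']
    rw [norm_mul, Complex.norm_real, Real.norm_of_nonneg (wt_nonneg _ _)]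
    exact mul_le_mul_of_nonneg_right (hc p hp) (wt_nonneg _ _)
  have hpr : ∀ p ∈ S, p.Prime := fun p hp => (hS p hp).1
  have e1 : ∀ t : ℝ, ∑ p ∈ S, c p * (ph (-t) p * (wt ε p : ℂ)) =
      ∑ p ∈ S₁, c' p * ph (-t) p + ∑ p ∈ S₂, c' p * ph (-t) p := by
    intro t
    rw [hS₁, hS₂, sum_filter_add_sum_filter_not]
    apply sum_congr rfl
    intro p _
    simp only [hc']
    ring
  have hcont : ∀ T : Finset ℕ, T ⊆ S → Continuous fun t : ℝ => ‖∑ p ∈ T, c' p * ph (-t) p‖ ^ 2 := by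
    intro T hT
    apply Continuous.pow
    apply Continuous.norm
    apply continuous_finsetSum
    intro p hp
    exact continuous_const.mul (continuous_ph (hpr p (hT hp)).pos)
  have hcont0 : Continuous fun t : ℝ => ‖∑ p ∈ S, c p * (ph (-t) p * (wt ε p : ℂ))‖ ^ 2 := by
    apply Continuous.pow
    apply Continuous.norm
    apply continuous_finsetSum
    intro p hp
    exact continuous_const.mul ((continuous_ph (hpr p hp).pos).mul continuous_const)
  have h1 : ∫ t in U..(U + H), ‖∑ p ∈ S, c p * (ph (-t) p * (wt ε p : ℂ))‖ ^ 2 ≤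
      2 * (∫ t in U..(U + H), ‖∑ p ∈ S₁, c' p * ph (-t) p‖ ^ 2) +
        2 * ∫ t in U..(U + H), ‖∑ p ∈ S₂, c' p * ph (-t) p‖ ^ 2 := by
    rw [← intervalIntegral.integral_const_mul, ← intervalIntegral.integral_const_mul,
      ← intervalIntegral.integral_add]
    · apply intervalIntegral.integral_mono_on (by linarith)
      · exact hcont0.intervalIntegrable _ _
      · exact (((hcont S₁ (filter_subset _ _)).const_mul 2).add
          ((hcont S₂ (filter_subset _ _)).const_mul 2)).intervalIntegrable _ _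
      · intro t _
        rw [e1]
        have h2 := norm_add_le (∑ p ∈ S₁, c' p * ph (-t) p) (∑ p ∈ S₂, c' p * ph (-t) p)
        have h3 := pow_le_pow_left₀ (norm_nonneg _) h2 2
        nlinarith [sq_nonneg (‖∑ p ∈ S₁, c' p * ph (-t) p‖ - ‖∑ p ∈ S₂, c' p * ph (-t) p‖)]
    · exact ((hcont S₁ (filter_subset _ _)).const_mul 2).intervalIntegrable _ _
    · exact ((hcont S₂ (filter_subset _ _)).const_mul 2).intervalIntegrable _ _
  -- numbers
  have hH4 : 4 * H ≤ H ^ 2 := by nlinarith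
  have hlog1 : 1 ≤ Real.log H := by
    have h2 := Real.exp_one_lt_d9
    rw [Real.le_log_iff_exp_le hH0]
    linarith
  have hlogX : Real.log X ≤ 82 * Real.log H := by
    rcases Nat.eq_zero_or_pos X with h | h
    · rw [h]; simp; linarith
    · have h2 : (X : ℝ) ≤ (4 * H) ^ 41 := Nat.floor_le (by positivity)
      have h3 := Real.log_le_log (by exact_mod_cast h) h2
      rw [Real.log_pow] at h3
      have h4 := Real.log_le_log (by positivity) hH4
      rw [Real.log_pow] at h4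
      push_cast at h3 h4
      linarith
  have hhr : hr X ≤ 83 * Real.log H := (hr_le X).trans (by linarith)
  have h2 : ∫ t in U..(U + H), ‖∑ p ∈ S₁, c' p * ph (-t) p‖ ^ 2 ≤
      2 * H * (M ^ 2 * (384 / Real.sqrt Y + 277929816 * (Real.log H ^ 4 / H))) := by
    refine (kern S₁ (fun n hn => (hpr n (mem_filter.1 hn).1).pos) c' U hH0).trans ?_
    apply mul_le_mul_of_nonneg_left _ (by positivity)
    have hB : ∀ n ∈ S₁, ‖c' n‖ ≤ (M * (82 * Real.log H)) / n := by
      intro n hn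
      rw [mem_filter] at hn
      have hnp := hpr n hn.1
      have hn0 : (0 : ℝ) < n := by exact_mod_cast hnp.pos
      refine (hnc' n hnp).trans ?_
      rw [mul_div_assoc]
      apply mul_le_mul_of_nonneg_left _ hM
      refine (wt_le hε.le hnp.pos).trans ?_
      apply div_le_div_of_nonneg_right _ hn0.le
      exact (Real.log_le_log hn0 (by exact_mod_cast hn.2)).trans hlogX
    refine (medium_part hH0 (X := X) S₁ (by
      intro n hn
      rw [mem_filter] at hn
      rw [mem_Icc]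
      exact ⟨(hpr n hn.1).one_le, hn.2⟩) hB).trans ?_
    have h3 : ∑ n ∈ S₁, ‖c' n‖ ^ 2 ≤ M ^ 2 * (32 / Real.sqrt Y) := by
      have h4 : ∀ n ∈ S₁, ‖c' n‖ ^ 2 ≤ M ^ 2 * wt ε n ^ 2 := by
        intro n hn
        rw [← mul_pow]
        exact pow_le_pow_left₀ (norm_nonneg _) (hnc' n (hpr n (mem_filter.1 hn).1)) 2
      refine (sum_le_sum h4).trans ?_
      rw [← mul_sum]
      apply mul_le_mul_of_nonneg_left _ (by positivity)
      exact sum_wt_sq hY hε.le S₁ fun n hn => (hS n (mem_filter.1 hn).1).2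
    have h4 : hr X ^ 2 ≤ (83 * Real.log H) ^ 2 := pow_le_pow_left₀ (hr_nonneg _) hhr 2
    have h5 : 6 * (M * (82 * Real.log H)) ^ 2 * hr X ^ 2 / H ≤
        6 * (M * (82 * Real.log H)) ^ 2 * (83 * Real.log H) ^ 2 / H := by
      apply div_le_div_of_nonneg_right _ hH0.le
      exact mul_le_mul_of_nonneg_left h4 (by positivity)
    have h6 : 6 * (M * (82 * Real.log H)) ^ 2 * (83 * Real.log H) ^ 2 / H =
        M ^ 2 * (277929816 * (Real.log H ^ 4 / H)) := by
      field_simp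
      ring
    have h7 : M ^ 2 * (384 / Real.sqrt Y + 277929816 * (Real.log H ^ 4 / H)) =
        12 * (M ^ 2 * (32 / Real.sqrt Y)) + M ^ 2 * (277929816 * (Real.log H ^ 4 / H)) := by ring
    rw [h7]
    linarith
  have h3 : ∫ t in U..(U + H), ‖∑ p ∈ S₂, c' p * ph (-t) p‖ ^ 2 ≤
      2 * H * (M ^ 2 * (864 * Real.sqrt CT / (H * ε))) := by
    refine (kern S₂ (fun n hn => (hpr n (mem_filter.1 hn).1).pos) c' U hH0).trans ?_
    apply mul_le_mul_of_nonneg_left _ (by positivity)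
    have h4 : ∀ m ∈ S₂, ∀ n ∈ S₂, ‖c' m‖ * ‖c' n‖ * kk (H * (Real.log m - Real.log n)) ≤
        M ^ 2 * (‖(wt ε m : ℂ)‖ * ‖(wt ε n : ℂ)‖ * kk (H * (Real.log m - Real.log n))) := by
      intro m hm n hn
      have h5 := hnc' m (hpr m (mem_filter.1 hm).1)
      have h6 := hnc' n (hpr n (mem_filter.1 hn).1)
      rw [Complex.norm_real, Complex.norm_real, Real.norm_of_nonneg (wt_nonneg _ _),
        Real.norm_of_nonneg (wt_nonneg _ _), ← mul_assoc]
      apply mul_le_mul_of_nonneg_right _ (kk_nonneg _)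
      calc ‖c' m‖ * ‖c' n‖ ≤ (M * wt ε m) * (M * wt ε n) :=
            mul_le_mul h5 h6 (norm_nonneg _) (mul_nonneg hM (wt_nonneg _ _))
        _ = _ := by ring
    refine (sum_le_sum fun m hm => sum_le_sum (h4 m hm)).trans ?_
    simp_rw [← mul_sum]
    apply mul_le_mul_of_nonneg_left _ (by positivity)
    apply large_part hH hε hε1 S₂ (c := fun n => (wt ε n : ℂ))
    · intro p hp
      rw [mem_filter] at hp
      refine ⟨hpr p hp.1, ?_⟩
      have h5 : X < p := not_le.1 hp.2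
      exact ((Nat.lt_iff_add_one_le.1 h5 |> fun h => (Nat.lt_floor_add_one ((4 * H) ^ 41)).le.trans
        (by exact_mod_cast h)))
    · intro p _
      rw [Complex.norm_real, Real.norm_of_nonneg (wt_nonneg _ _)]
      exact le_rfl
  rw [integral_tau U hH0, smul_eq_mul]
  have h4 : ∫ t in U..(U + H), ‖∑ p ∈ S, c p * (ph (-t) p * (wt ε p : ℂ))‖ ^ 2 ≤
      H * (M ^ 2 * (1536 / Real.sqrt Y + CA * (Real.log H ^ 4 / H) + CA / (H * ε))) := by
    refine h1.trans ?_
    have e : H * (M ^ 2 * (1536 / Real.sqrt Y + 1111719264 * (Real.log H ^ 4 / H) +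
        3456 * Real.sqrt CT / (H * ε))) = 2 * (2 * H * (M ^ 2 * (384 / Real.sqrt Y +
        277929816 * (Real.log H ^ 4 / H)))) + 2 * (2 * H * (M ^ 2 * (864 * Real.sqrt CT /
          (H * ε)))) := by ring
    refine (add_le_add (mul_le_mul_of_nonneg_left h2 (by norm_num))
      (mul_le_mul_of_nonneg_left h3 (by norm_num))).trans (e.symm.le.trans ?_)
    apply mul_le_mul_of_nonneg_left _ hH0.le
    apply mul_le_mul_of_nonneg_left _ (by positivity)
    have h5 : (1111719264 : ℝ) ≤ CA := by unfold CA; linarith [Real.sqrt_nonneg CT]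
    have h6 : 3456 * Real.sqrt CT ≤ CA := by unfold CA; linarith
    have h7 := mul_le_mul_of_nonneg_right h5 (by positivity : 0 ≤ Real.log H ^ 4 / H)
    have h8 : 3456 * Real.sqrt CT / (H * ε) ≤ CA / (H * ε) :=
      div_le_div_of_nonneg_right h6 (by positivity)
    linarith
  calc _ ≤ H⁻¹ * (H * (M ^ 2 * (1536 / Real.sqrt Y + CA * (Real.log H ^ 4 / H) +
        CA / (H * ε)))) := mul_le_mul_of_nonneg_left h4 (by positivity)
    _ = _ := by rw [← mul_assoc, inv_mul_cancel₀ hH0.ne', one_mul]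

/-- the series over the primes -/
noncomputable def PL (c g : ℕ → ℂ) (ε : ℝ) : ℂ :=
  ∑' p : Nat.Primes, c p * (g p * (wt ε p : ℂ))

lemma summable_wt {ε : ℝ} (hε : 0 < ε) : Summable fun n : ℕ => wt ε n := by
  have h1 : Summable fun n : ℕ => (2 / ε) * (n : ℝ) ^ (-(1 + ε / 2)) :=
    (Real.summable_nat_rpow.2 (by linarith)).mul_left _
  refine Summable.of_nonneg_of_le (fun n => wt_nonneg _ _) (fun n => ?_) h1
  unfold wt
  rcases Nat.eq_zero_or_pos n with h | h
  · subst h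
    simp
    rw [Real.zero_rpow (by linarith)]
    simp
  · have hn0 : (0 : ℝ) < n := by exact_mod_cast h
    have h2 := Real.log_le_rpow_div hn0.le (half_pos hε)
    calc Real.log n * (n : ℝ) ^ (-(1 + ε)) ≤ ((n : ℝ) ^ (ε / 2) / (ε / 2)) * (n : ℝ) ^ (-(1 + ε)) :=
          mul_le_mul_of_nonneg_right h2 (by positivity)
      _ = (2 / ε) * ((n : ℝ) ^ (ε / 2) * (n : ℝ) ^ (-(1 + ε))) := by field_simp
      _ = _ := by
          rw [← Real.rpow_add hn0]
          congr 2
          ring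

/-- the finite partial sums converge -/
lemma PL_tendsto {c g : ℕ → ℂ} {M : ℝ} (hc : ∀ p : ℕ, p.Prime → ‖c p‖ ≤ M) (hg : PM g) {ε : ℝ}
    (hε : 0 < ε) : Tendsto (fun N : ℕ => ∑ p ∈ (range N).filter Nat.Prime,
      c p * (g p * (wt ε p : ℂ))) atTop (𝓝 (PL c g ε)) := by
  have hM : 0 ≤ M := (norm_nonneg _).trans (hc 2 Nat.prime_two)
  set f : ℕ → ℂ := fun p => if p.Prime then c p * (g p * (wt ε p : ℂ)) else 0 with hf
  have h1 : Summable f := by
    refine Summable.of_norm_bounded ((summable_wt hε).mul_left M) fun n => ?_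
    simp only [hf]
    split_ifs with h
    · rw [norm_mul, norm_mul, Complex.norm_real, Real.norm_of_nonneg (wt_nonneg _ _)]
      have h2 := mul_le_mul_of_nonneg_right (hg.le n h) (wt_nonneg ε n)
      rw [one_mul] at h2
      exact mul_le_mul (hc n h) h2 (mul_nonneg (norm_nonneg _) (wt_nonneg _ _)) hM
    · rw [norm_zero]
      exact mul_nonneg hM (wt_nonneg _ _)
  have h2 : PL c g ε = ∑' n : ℕ, f n := by
    unfold PL
    rw [← tsum_subtype_eq_of_support_subset (s := {p : ℕ | p.Prime}) (f := f)]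
    · apply tsum_congr
      intro p
      simp only [hf]
      rw [if_pos p.2]
    · intro n hn
      by_contra hcon
      apply hn
      simp only [hf]
      exact if_neg hcon
  rw [h2]
  have h3 := h1.hasSum.tendsto_sum_nat
  refine h3.congr fun N => ?_
  rw [sum_filter]

lemma norm_fin_le {c g : ℕ → ℂ} {M : ℝ} (hc : ∀ p : ℕ, p.Prime → ‖c p‖ ≤ M) (hg : PM g) {ε : ℝ}
    (hε : 0 < ε) (N : ℕ) : ‖∑ p ∈ (range N).filter Nat.Prime, c p * (g p * (wt ε p : ℂ))‖ ≤
      M * ∑' n : ℕ, wt ε n := by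
  have hM : 0 ≤ M := (norm_nonneg _).trans (hc 2 Nat.prime_two)
  have h1 : ∀ p ∈ (range N).filter Nat.Prime, ‖c p * (g p * (wt ε p : ℂ))‖ ≤ M * wt ε p := by
    intro p hp
    have h := (mem_filter.1 hp).2
    rw [norm_mul, norm_mul, Complex.norm_real, Real.norm_of_nonneg (wt_nonneg _ _)]
    have h2 := mul_le_mul_of_nonneg_right (hg.le p h) (wt_nonneg ε p)
    rw [one_mul] at h2
    exact mul_le_mul (hc p h) h2 (mul_nonneg (norm_nonneg _) (wt_nonneg _ _)) hM
  refine (norm_sum_le_of_le _ h1).trans ?_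
  rw [← mul_sum]
  apply mul_le_mul_of_nonneg_left _ hM
  exact (summable_wt hε).sum_le_tsum _ fun n _ => wt_nonneg _ _

/-- **The mean square of the tail.** -/
theorem ms_t {H : ℝ} (hH : (120000 : ℝ) ≤ H) {ε : ℝ} (hε : 0 < ε) (hε1 : ε ≤ 1 / 2) (U : ℝ)
    {c : ℕ → ℂ} {M : ℝ} (hc : ∀ p : ℕ, p.Prime → ‖c p‖ ≤ M) {Y : ℕ} (hY : 1 ≤ Y)
    (hcY : ∀ p : ℕ, p.Prime → p ≤ Y → c p = 0) :
    ∫ t, ‖PL c (ph (-t)) ε‖ ^ 2 ∂(tau U H) ≤
      M ^ 2 * (1536 / Real.sqrt Y + CA * (Real.log H ^ 4 / H) + CA / (H * ε)) := by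
  classical
  have hM : 0 ≤ M := (norm_nonneg _).trans (hc 2 Nat.prime_two)
  have hH0 : 0 < H := by linarith
  have hprob := prob_tau U hH0
  have h1 : Tendsto (fun N : ℕ => ∫ t, ‖∑ p ∈ (range N).filter Nat.Prime,
      c p * (ph (-t) p * (wt ε p : ℂ))‖ ^ 2 ∂(tau U H)) atTop
      (𝓝 (∫ t, ‖PL c (ph (-t)) ε‖ ^ 2 ∂(tau U H))) := by
    apply tendsto_integral_of_dominated_convergence (fun _ => (M * ∑' n : ℕ, wt ε n) ^ 2)
    · intro N
      apply Continuous.aestronglyMeasurable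
      apply Continuous.pow
      apply Continuous.norm
      apply continuous_finsetSum
      intro p hp
      exact continuous_const.mul ((continuous_ph (mem_filter.1 hp).2.pos).mul continuous_const)
    · exact integrable_const _
    · intro N
      refine Eventually.of_forall fun t => ?_
      rw [norm_pow, norm_norm]
      exact pow_le_pow_left₀ (norm_nonneg _) (norm_fin_le hc (pm_ph t) hε N) 2
    · exact Eventually.of_forall fun t => ((PL_tendsto hc (pm_ph t) hε).norm).pow 2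
  refine le_of_tendsto' h1 fun N => ?_
  have h2 : ∀ t : ℝ, ∑ p ∈ (range N).filter Nat.Prime, c p * (ph (-t) p * (wt ε p : ℂ)) =
      ∑ p ∈ (((range N).filter Nat.Prime).filter fun p => Y < p),
        c p * (ph (-t) p * (wt ε p : ℂ)) := by
    intro t
    symm
    apply sum_filter_of_ne
    intro p hp hne
    by_contra hcon
    apply hne
    rw [hcY p (mem_filter.1 hp).2 (not_lt.1 hcon), zero_mul]
  simp_rw [h2]
  apply fin_ms hH hε hε1 U hM hc hY
  intro p hp
  rw [mem_filter, mem_filter] at hp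
  exact ⟨hp.1.2, hp.2⟩

end Pool.Agent.H439.FA
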