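import Pool.Agent.H439.FA.Lim
import Pool.Agent.H439.TA.Equi

/-!
# The partial sums on the torus
-/

set_option autoImplicit false

namespace Pool.Agent.H439.FA

open Finset Complex ComplexConjugate Filter Topology MeasureTheory NumberField IsDedekindDomain
  UnitAddTorus Pool.Agent.TH339.MP Pool.Agent.H439.LS Pool.Agent.H439.LL Pool.Agent.H439.TA

section
variable {K : Type} [Field K] [NumberField K] {r : ℕ}

/-- the primes -/
def D1 (Y : ℕ) : Finset ℕ := (DY Y).filter fun p => p.Coprime 1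

/-- the partial sums on the torus -/
noncomputable def HF (a : Fin r → HeightOneSpectrum (𝓞 K) → ℂ) {Y : ℕ} (u : UnitAddTorus (DY Y))
    (ε : ℝ) : Fin r → ℂ := fun k => ∑ v ∈ Vy K (Y : ℝ),
      a k v * (zS (D1 Y) u (pr v : Nat.Primes) ^ dg v * (wt ε (nm v) : ℂ))

/-- the vector of the partial sums -/
noncomputable def FV (a : Fin r → HeightOneSpectrum (𝓞 K) → ℂ) (g : ℕ → ℂ) (ε : ℝ) (Y : ℕ) :
    Fin r → ℂ := fun k => FY (a k) g ε Y

lemma HF_eq (a : Fin r → HeightOneSpectrum (𝓞 K) → ℂ) {Y : ℕ} {u : UnitAddTorus (DY Y)}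
    {g : ℕ → ℂ} (hg : PM g) (h : ∀ p ∈ DY Y, zS (D1 Y) u p = g p) (ε : ℝ) :
    HF a u ε = FV a g ε Y := by
  funext k
  unfold HF FV FY ft
  apply sum_congr rfl
  intro v hv
  rw [h _ (pr_mem_DY hv), ← hg.pow _ (pr v).2, ← nm_eq]

lemma continuous_wt {n : ℕ} (hn : 0 < n) : Continuous fun ε : ℝ => wt ε n := by
  unfold wt
  apply Continuous.mul continuous_const
  apply Continuous.rpow continuous_const (by fun_prop)
  intro ε
  left
  exact_mod_cast hn.ne'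

lemma continuous_HF (a : Fin r → HeightOneSpectrum (𝓞 K) → ℂ) (Y : ℕ) :
    Continuous fun x : Set.Icc (0 : ℝ) (1 / 2) × UnitAddTorus (DY Y) => HF a x.2 (x.1 : ℝ) := by
  apply continuous_pi
  intro k
  unfold HF
  apply continuous_finsetSum
  intro v _
  apply Continuous.mul continuous_const
  apply Continuous.mul
  · exact ((continuous_zS _ _).comp continuous_snd).pow _
  · exact Complex.continuous_ofReal.comp ((continuous_wt (nm_pos v)).comp
      (continuous_subtype_val.comp continuous_fst))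

lemma continuous_HF' (a : Fin r → HeightOneSpectrum (𝓞 K) → ℂ) (Y : ℕ) (ε : ℝ) :
    Continuous fun u : UnitAddTorus (DY Y) => HF a u ε := by
  apply continuous_pi
  intro k
  unfold HF
  apply continuous_finsetSum
  intro v _
  exact continuous_const.mul (((continuous_zS _ _).pow _).mul continuous_const)

/-- **Comparison of averages of functions of the partial sums.** -/
lemma exists_freqF (a : Fin r → HeightOneSpectrum (𝓞 K) → ℂ) (Y : ℕ) {f : (Fin r → ℂ) → ℝ}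
    (hf : Continuous f) {η : ℝ} (hη : 0 < η) : ∃ (F : Finset (DY Y → ℤ)) (δ₀ : ℝ), 0 < δ₀ ∧
      ∀ A B : C(UnitAddTorus (DY Y), ℂ) →ₗ[ℂ] ℂ,
      (∀ G, ‖A G‖ ≤ ‖G‖) → (∀ G, ‖B G‖ ≤ ‖G‖) →
      (∀ m ∈ F, ‖A (mFourier m) - B (mFourier m)‖ ≤ δ₀) →
      ∀ ε : ℝ, 0 ≤ ε → ε ≤ 1 / 2 → ∀ G : C(UnitAddTorus (DY Y), ℂ),
        (∀ u, G u = (f (HF a u ε) : ℂ)) → ‖A G - B G‖ ≤ η := by
  set Φ : C(Set.Icc (0 : ℝ) (1 / 2) × UnitAddTorus (DY Y), ℂ) :=
    ⟨fun x => (f (HF a x.2 (x.1 : ℝ)) : ℂ),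
      Complex.continuous_ofReal.comp (hf.comp (continuous_HF a Y))⟩ with hΦ
  have hcomp : IsCompact (Set.range Φ.curry) := isCompact_range Φ.curry.continuous
  obtain ⟨F, δ₀, hδ₀, hF⟩ := approx' (Set.range Φ.curry) hcomp hη
  refine ⟨F, δ₀, hδ₀, fun A B hA hB hAB ε h0 h1 G hG => ?_⟩
  apply hF A B hA hB hAB G
  refine ⟨⟨ε, h0, h1⟩, ?_⟩
  ext u
  rw [hG u]
  rfl

/-- **The torus comparison.** -/
lemma torus_F (a : Fin r → HeightOneSpectrum (𝓞 K) → ℂ) (Y : ℕ) {f : (Fin r → ℂ) → ℝ}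
    (hf : Continuous f) {η : ℝ} (hη : 0 < η) :
    ∀ᶠ H : ℝ in atTop, ∀ U ε : ℝ, 0 ≤ ε → ε ≤ 1 / 2 →
      ∀ (Ω : Type) [MeasurableSpace Ω] (μ : Measure Ω) (X : ℕ → Ω → ℂ), Steinhaus μ X →
        |∫ t, f (FV a (ph (-t)) ε Y) ∂(tau U H) - ∫ ω, f (FV a (gX 1 X ω) ε Y) ∂μ| ≤ η := by
  classical
  obtain ⟨F, δ₀, hδ₀, hF⟩ := exists_freqF a Y hf hη
  have h1 : ∀ m ∈ F, ∀ᶠ H : ℝ in atTop, m ≠ 0 → 2 / (H * |lam m|) ≤ δ₀ := by
    intro m _
    by_cases hm : m = 0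
    · exact Eventually.of_forall fun H h => absurd hm h
    · have hl : 0 < |lam m| := abs_pos.2 (lam_ne hm)
      filter_upwards [eventually_ge_atTop (2 / (δ₀ * |lam m|)), eventually_gt_atTop 0] with H hH hH0
      intro _
      rw [div_le_iff₀ (by positivity)] at hH ⊢
      nlinarith
  have h2 : ∀ᶠ H : ℝ in atTop, ∀ m ∈ F, m ≠ 0 → 2 / (H * |lam m|) ≤ δ₀ :=
    (Filter.eventually_all_finset F).2 h1
  filter_upwards [h2, eventually_gt_atTop 0] with H hH hH0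
  intro U ε hε0 hε1 Ω _ μ X hX
  have hprob := hX.prob
  have hprob' := prob_tau U hH0
  obtain ⟨τ, a1, a2, a3, a4⟩ := hX.angles
  have hcont := continuous_HF' a Y ε
  set G : C(UnitAddTorus (DY Y), ℂ) :=
    ⟨fun u => (f (HF a u ε) : ℂ), Complex.continuous_ofReal.comp (hf.comp hcont)⟩ with hG
  have hmsk : ∀ m : DY Y → ℤ, msk 1 m = m := by
    intro m
    funext i
    unfold msk
    rw [if_pos (Nat.coprime_one_right _)]
  have h3 := hF (At Y U hH0) (AX μ Y 1 τ a1) (norm_At Y U hH0) (norm_AX Y 1 a1) (fun m hm => by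
    rw [AX_mFourier Y 1 a1 a2 a3 m, hmsk]
    by_cases h : m = 0
    · rw [if_pos h, h]
      have h4 : At Y U hH0 (mFourier 0) = 1 := by
        change ∫ t, (mFourier (0 : DY Y → ℤ)) (ut Y t) ∂(tau U H) = 1
        rw [mFourier_zero]
        change ∫ t, (1 : ℂ) ∂(tau U H) = 1
        rw [integral_const]
        simp
      rw [h4]
      simp [hδ₀.le]
    · rw [if_neg h, sub_zero]
      exact (At_mFourier Y U hH0 h).trans (hH m hm h)) ε hε0 hε1 G (fun u => rfl)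
  have h5 : At Y U hH0 G = ((∫ t, f (FV a (ph (-t)) ε Y) ∂(tau U H) : ℝ) : ℂ) := by
    change ∫ t, G (ut Y t) ∂(tau U H) = _
    rw [← integral_complex_ofReal]
    congr 1
    funext t
    change (f (HF a (ut Y t) ε) : ℂ) = _
    rw [HF_eq a (pm_ph t) (zS_ut Y t)]
  have h6 : AX μ Y 1 τ a1 G = ((∫ ω, f (FV a (gX 1 X ω) ε Y) ∂μ : ℝ) : ℂ) := by
    change ∫ ω, G (ux Y 1 τ ω) ∂μ = _
    rw [← integral_complex_ofReal]
    congr 1
    funext ω
    change (f (HF a (ux Y 1 τ ω) ε) : ℂ) = _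
    rw [HF_eq a (pm_gX hX 1 ω) (zS_ux Y 1 a4 ω)]
  rw [h5, h6, ← Complex.ofReal_sub, Complex.norm_real, Real.norm_eq_abs] at h3
  exact h3

/-- the bound of the vector of the partial sums -/
lemma norm_FV {a : Fin r → HeightOneSpectrum (𝓞 K) → ℂ} {M : ℝ} (hM : 0 ≤ M)
    (ha : ∀ k v, ‖a k v‖ ≤ M) {g : ℕ → ℂ} (hg : PM g) {ε : ℝ} (hε : 0 ≤ ε) (Y : ℕ) :
    ‖FV a g ε Y‖ ≤ bY K M Y := by
  have h0 : 0 ≤ bY K M Y := by
    unfold bY
    apply sum_nonneg
    intro v _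
    have h1 : (1 : ℝ) ≤ nm v := by exact_mod_cast nm_pos v
    have := Real.log_nonneg h1
    positivity
  rw [pi_norm_le_iff_of_nonneg h0]
  intro k
  exact norm_FY hM (ha k) hg hε Y

/-- **The partial sums near `ε = 0`.** -/
lemma eps_F {a : Fin r → HeightOneSpectrum (𝓞 K) → ℂ} {M : ℝ} (hM : 0 ≤ M)
    (ha : ∀ k v, ‖a k v‖ ≤ M) (Y : ℕ) {f : (Fin r → ℂ) → ℝ} (hf : Continuous f) {η : ℝ}
    (hη : 0 < η) : ∃ ε₀ : ℝ, 0 < ε₀ ∧ ∀ ε : ℝ, 0 ≤ ε → ε ≤ ε₀ → ∀ g : ℕ → ℂ, PM g →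
      |f (FV a g ε Y) - f (FV a g 0 Y)| ≤ η := by
  have huc : UniformContinuousOn f (Metric.closedBall 0 (bY K M Y)) :=
    (isCompact_closedBall _ _).uniformContinuousOn_of_continuous hf.continuousOn
  rw [Metric.uniformContinuousOn_iff] at huc
  obtain ⟨θ, hθ, huc'⟩ := huc η hη
  have h1 : Tendsto (fun ε : ℝ => ∑ v ∈ Vy K (Y : ℝ), M * |wt ε (nm v) - wt 0 (nm v)|) (𝓝 0)
      (𝓝 (∑ v ∈ Vy K (Y : ℝ), M * |wt 0 (nm v) - wt 0 (nm v)|)) := by
    apply tendsto_finsetSum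
    intro v _
    exact (((continuous_wt (nm_pos v)).tendsto 0).sub_const _).abs.const_mul M
  simp only [sub_self, abs_zero, mul_zero, sum_const_zero] at h1
  have h2 := h1.eventually (gt_mem_nhds hθ)
  obtain ⟨ρ, hρ, h3⟩ := Metric.eventually_nhds_iff.1 h2
  refine ⟨ρ / 2, by positivity, fun ε hε0 hε1 g hg => ?_⟩
  have h4 := h3 (y := ε) (by
    rw [Real.dist_eq, sub_zero, abs_of_nonneg hε0]
    linarith)
  have h5 : ‖FV a g ε Y - FV a g 0 Y‖ ≤ ∑ v ∈ Vy K (Y : ℝ), M * |wt ε (nm v) - wt 0 (nm v)| := by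
    rw [pi_norm_le_iff_of_nonneg (sum_nonneg fun v _ => by positivity)]
    intro k
    change ‖FY (a k) g ε Y - FY (a k) g 0 Y‖ ≤ _
    unfold FY
    rw [← sum_sub_distrib]
    apply norm_sum_le_of_le
    intro v _
    unfold ft
    rw [← mul_sub, ← mul_sub, ← Complex.ofReal_sub, norm_mul, norm_mul, Complex.norm_real,
      Real.norm_eq_abs]
    have h6 := norm_g_nm hg v
    calc ‖a k v‖ * (‖g (nm v)‖ * |wt ε (nm v) - wt 0 (nm v)|) ≤
          M * (1 * |wt ε (nm v) - wt 0 (nm v)|) := by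
          apply mul_le_mul (ha k v) _ (by positivity) hM
          exact mul_le_mul_of_nonneg_right h6 (abs_nonneg _)
      _ = _ := by rw [one_mul]
  have h6 := huc' (FV a g ε Y) (by
    rw [Metric.mem_closedBall, dist_zero_right]
    exact norm_FV hM ha hg hε0 Y) (FV a g 0 Y) (by
    rw [Metric.mem_closedBall, dist_zero_right]
    exact norm_FV hM ha hg le_rfl Y) (by
    rw [dist_eq_norm]
    exact lt_of_le_of_lt h5 h4)
  rw [Real.dist_eq] at h6
  exact h6.le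

end

end Pool.Agent.H439.FA
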